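import Pool.Agent.N921.QD.Def

set_option autoImplicit false
set_option linter.all false

/-!
# Identities in a module over the invariants
-/

namespace Pool.Agent.N921.QDU.Rel

variable {k : Type*} [Field k] {D : Type*} [DivisionRing D] [Algebra k D]

/-- The right hand side of the product formula for adjacent generators. -/
def rhs (q : k) (f B1 s1 s2 B4 x0 x1 x2 x4 : D) : D :=
  f + q • (B1 * x1) - q • (s1 * x1) - q • (s1 * x2) - q • (s2 * x4) - q • (s2 * x0) +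
    q • (B4 * x0) - x0 - x1

/-- The product table. -/
structure Tab (q : k) (a0 a1 a2 a3 a4 f B1 s1 s2 B4 T : D) : Prop where
  q0 : q ≠ 0
  E0 : a0 * a1 = rhs q f B1 s1 s2 B4 a0 a1 a2 a4
  E1 : a1 * a2 = rhs q f B1 s1 s2 B4 a1 a2 a3 a0
  E2 : a2 * a3 = rhs q f B1 s1 s2 B4 a2 a3 a4 a1
  E3 : a3 * a4 = rhs q f B1 s1 s2 B4 a3 a4 a0 a2
  E4 : a4 * a0 = rhs q f B1 s1 s2 B4 a4 a0 a1 a3
  c0 : a1 * a0 = q⁻¹ • (a0 * a1)
  c1 : a2 * a1 = q⁻¹ • (a1 * a2)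
  c4 : a0 * a4 = q⁻¹ • (a4 * a0)
  d0 : a0 * a2 = a1 + q⁻¹ • 1
  d1 : a1 * a3 = a2 + q⁻¹ • 1
  d2 : a2 * a4 = a3 + q⁻¹ • 1
  d3 : a3 * a0 = a4 + q⁻¹ • 1
  d4 : a4 * a1 = a0 + q⁻¹ • 1
  e0 : a2 * a0 = q⁻¹ • a1 + q⁻¹ • 1
  e1 : a3 * a1 = q⁻¹ • a2 + q⁻¹ • 1
  T : T = a0 + a1 + a2 + a3 + a4

variable {q : k} {a0 a1 a2 a3 a4 f B1 s1 s2 B4 T : D}

theorem sq0 (h : Tab q a0 a1 a2 a3 a4 f B1 s1 s2 B4 T) :
    a0 * a0 = T * a0 - q⁻¹ • (a0 * a1) - a4 * a0 - q⁻¹ • a1 - a4 - (2 * q⁻¹) • 1 := by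
  rw [h.T]
  simp only [add_mul]
  rw [h.c0, h.e0, h.d3]
  module

theorem sq1 (h : Tab q a0 a1 a2 a3 a4 f B1 s1 s2 B4 T) :
    a1 * a1 = T * a1 - q⁻¹ • (a1 * a2) - a0 * a1 - q⁻¹ • a2 - a0 - (2 * q⁻¹) • 1 := by
  rw [h.T]
  simp only [add_mul]
  rw [h.c1, h.e1, h.d4]
  module

theorem relA (h : Tab q a0 a1 a2 a3 a4 f B1 s1 s2 B4 T) :
    ((-2 * q⁻¹ - 1) • (1 : D) + (q - 1) • B1 + B4 - T + (1 - q) • s1 - s2 + q • (B1 * B4) -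
      q • (B1 * s2) - s1 * s2) * a0 +
    (q⁻¹ • (1 : D) - B1 + q⁻¹ • f + (-q⁻¹ - q) • s1 + q • (B1 * B1) - q • (B1 * s1) + s1 * B4 -
      s1 * T - s1 * s2) * a1 +
    ((-q⁻¹) • s2 - q • (B1 * s1) + s1 * B1 - s1 * s1) * a2 +
    ((-q) • s2 - s1 * s1) * a3 +
    (q • B4 - q • s2 - q • (B1 * s2)) * a4 +
    ((2 * q⁻¹ - q⁻¹ ^ 2) • (1 : D) + q⁻¹ • B4 + f + (2 * q⁻¹) • s1 - (2 * q⁻¹) • s2 + B1 * f +
      q⁻¹ • (s1 * f)) = 0 := by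
  have hq := h.q0
  have e : a0 * a4 * a1 = a0 * (a4 * a1) := mul_assoc _ _ _
  rw [h.c4, h.E4, h.d4] at e
  simp only [rhs, add_mul, sub_mul, mul_add, smul_mul_assoc, mul_smul_comm, mul_assoc, smul_add,
    smul_sub, smul_smul, h.d4, h.e1, sq0 h, sq1 h, h.E0, h.E1, h.E4, mul_sub, mul_one] at e
  rw [← sub_eq_zero] at e
  rw [← e]
  simp only [add_mul, sub_mul, mul_add, smul_mul_assoc, mul_smul_comm, mul_assoc, smul_add,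
    smul_sub, smul_smul, mul_sub, mul_one, one_mul]
  match_scalars <;> field_simp <;> ring

theorem relB (h : Tab q a0 a1 a2 a3 a4 f B1 s1 s2 B4 T) :
    (-(1 : D) + q • B1 - q ^ 2 • (s1 * B4) + q ^ 2 • (s1 * s2) + q • (s2 * s2)) * a0 +
    (f + q • s1 + s2 - q ^ 2 • (s1 * B1) + q ^ 2 • (s1 * s1) - q • (s2 * B4) +
      q • (s2 * s2)) * a1 +
    ((-q⁻¹) • (1 : D) + B4 + q ^ 2 • (s1 * s1) - q • (s2 * B1) + q • (s2 * s1)) * a2 +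
    ((-q⁻¹) • (1 : D) + q • (s2 * s1)) * a3 +
    (-(1 : D) + q ^ 2 • (s1 * s2)) * a4 +
    ((-3 * q⁻¹) • (1 : D) + B1 + B4 - s1 - s2 - q • (s1 * f) - s2 * f) = 0 := by
  have hq := h.q0
  have e : a3 * a4 * a1 = a3 * (a4 * a1) := mul_assoc _ _ _
  rw [h.E3, h.d4] at e
  simp only [rhs, add_mul, sub_mul, mul_add, smul_mul_assoc, mul_smul_comm, mul_assoc, smul_add,
    smul_sub, smul_smul, h.d4, h.e1, h.c1, h.E0, h.E1, h.d3, mul_sub, mul_one] at e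
  rw [← sub_eq_zero] at e
  rw [← e]
  simp only [add_mul, sub_mul, mul_add, smul_mul_assoc, mul_smul_comm, mul_assoc, smul_add,
    smul_sub, smul_smul, mul_sub, mul_one, one_mul, neg_mul]
  match_scalars <;> field_simp <;> ring

theorem relD (h : Tab q a0 a1 a2 a3 a4 f B1 s1 s2 B4 T) :
    ((-q⁻¹) • (1 : D) + B4 - f + (q⁻¹ + q) • s2 - q • (B4 * B4) + q • (B4 * s2) -
      q ^ 2 • (s2 * B1) + q • (s2 * T) + q ^ 2 • (s2 * s1)) * a0 +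
    ((q⁻¹ ^ 2 + 2 * q⁻¹) • (1 : D) - B1 + (1 - q⁻¹) • B4 + q⁻¹ • T + s1 + (q⁻¹ - 1) • s2 -
      q • (B4 * B1) + q • (B4 * s1) + q ^ 2 • (s2 * s1)) * a1 +
    ((-q⁻¹) • B1 + q⁻¹ • s1 + q • (B4 * s1)) * a2 +
    (q⁻¹ • s1 + q ^ 2 • (s2 * s2)) * a3 +
    (q • s1 + q • (B4 * s2) - q ^ 2 • (s2 * B4) + q ^ 2 • (s2 * s2)) * a4 +
    ((-2 * q⁻¹ ^ 2 + q⁻¹) • (1 : D) - B1 - q⁻¹ ^ 2 • f + (2 : k) • s1 - (2 : k) • s2 - B4 * f -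
      q • (s2 * f)) = 0 := by
  have hq := h.q0
  have e1 : a2 * a0 * a1 = q • (a2 * a1 * a0) := by
    rw [mul_assoc, mul_assoc, h.c0, mul_smul_comm, smul_smul, mul_inv_cancel₀ hq, one_smul]
  rw [h.e0, h.c1, h.E1] at e1
  simp only [rhs, add_mul, sub_mul, mul_add, smul_mul_assoc, mul_smul_comm, mul_assoc, smul_add,
    smul_sub, smul_smul, h.c0, h.e0, h.d3, sq0 h, sq1 h, h.E0, h.E1, h.E4, mul_sub, mul_one,
    one_mul] at e1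
  rw [← sub_eq_zero] at e1
  rw [← e1]
  simp only [add_mul, sub_mul, mul_add, smul_mul_assoc, mul_smul_comm, mul_assoc, smul_add,
    smul_sub, smul_smul, mul_sub, mul_one, one_mul, neg_mul]
  match_scalars <;> field_simp <;> ring

end Pool.Agent.N921.QDU.Rel
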