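import Pool.Agent.N921.QDU.Gen
import Pool.Agent.N921.QDU.Rel

set_option autoImplicit false
set_option linter.all false

/-!
# The invariants
-/

namespace Pool.Agent.N921.QDU.Core

open Pool.Agent.N921.QD Pool.Agent.N921.QDU.Lin Pool.Agent.N921.QDU.Gen Pool.Agent.N921.QDU.Rel

variable {k : Type*} [Field k] {q : k} {D : Type*} [DivisionRing D] [Algebra k D]

theorem wb_le (w : WithBot ℤ) (n m : ℤ) (h : (n : WithBot ℤ) + w ≤ (m : WithBot ℤ)) :
    w ≤ ((m - n : ℤ) : WithBot ℤ) := by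
  induction w using WithBot.recBotCoe with
  | bot => exact bot_le
  | coe w =>
    have h' : ((n + w : ℤ) : WithBot ℤ) ≤ ((m : ℤ) : WithBot ℤ) := h
    have := WithBot.coe_le_coe.1 h'
    apply WithBot.coe_le_coe.2
    omega

/-- The setting: the cyclic automorphism, the five generators and a degree function. -/
structure Setup (q : k) (π : D ≃ₐ[k] D) (a : ZMod 5 → D) (ν : D → WithBot ℤ) : Prop where
  q0 : q ≠ 0
  q1 : ∀ n : ℕ, 0 < n → q ^ n ≠ 1
  cyc : Cyc q a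
  shift : ∀ i, π (a i) = a (i + 1)
  deg : Deg ν
  degk : ∀ c : k, c ≠ 0 → ν (algebraMap k D c) = 0
  n0 : ν (a 0) = 2
  n1 : ν (a 1) = 1

section

variable {π : D ≃ₐ[k] D} {a : ZMod 5 → D} {ν : D → WithBot ℤ}

/-- The subalgebra of elements of nonpositive degree. -/
def O (h : Setup q π a ν) : Subalgebra k D where
  carrier := {d | ν d ≤ 0}
  mul_mem' := by
    intro a b ha hb
    change ν (a * b) ≤ 0
    rw [h.deg.mul]
    calc ν a + ν b ≤ 0 + 0 := add_le_add ha hb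
      _ = 0 := by simp
  add_mem' := by
    intro a b ha hb
    exact (h.deg.add _ _).trans (max_le ha hb)
  algebraMap_mem' := by
    intro c
    change ν _ ≤ 0
    by_cases hc : c = 0
    · rw [hc, map_zero, (h.deg.bot 0).2 rfl]
      exact bot_le
    · rw [h.degk c hc]

theorem mem_O (h : Setup q π a ν) (d : D) : d ∈ O h ↔ ν d ≤ 0 := Iff.rfl

theorem smul_one_le (h : Setup q π a ν) (c : k) : ν (c • (1 : D)) ≤ 0 :=
  (mem_O h _).1 ((O h).smul_mem (O h).one_mem c)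

theorem n2 (h : Setup q π a ν) : ν (a 2) ≤ ((-1 : ℤ) : WithBot ℤ) := by
  have e : a 0 * a 2 = a 1 + q⁻¹ • (1 : D) := h.cyc.diag 0
  have e2 : ν (a 0 * a 2) ≤ 1 := by
    rw [e]
    refine (h.deg.add _ _).trans (max_le h.n1.le ((smul_one_le h _).trans ?_))
    exact zero_le_one
  rw [h.deg.mul, h.n0] at e2
  exact wb_le (ν (a 2)) 2 1 e2

theorem n3 (h : Setup q π a ν) : ν (a 3) ≤ ((-1 : ℤ) : WithBot ℤ) := by
  have e : a 1 * a 3 = a 2 + q⁻¹ • (1 : D) := h.cyc.diag 1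
  have e2 : ν (a 1 * a 3) ≤ 0 := by
    rw [e]
    refine (h.deg.add _ _).trans (max_le ((n2 h).trans ?_) (smul_one_le h _))
    exact WithBot.coe_le_coe.2 (by norm_num)
  rw [h.deg.mul, h.n1] at e2
  exact wb_le (ν (a 3)) 1 0 e2

theorem n4 (h : Setup q π a ν) : ν (a 4) ≤ ((1 : ℤ) : WithBot ℤ) := by
  have e : a 3 * a 0 = a 4 + q⁻¹ • (1 : D) := h.cyc.diag 3
  have e2 : a 4 = a 3 * a 0 + (-q⁻¹) • (1 : D) := by
    rw [e]
    module
  rw [e2]
  refine (h.deg.add _ _).trans (max_le ?_ ((smul_one_le h _).trans ?_))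
  · rw [h.deg.mul, h.n0]
    calc ν (a 3) + 2 ≤ ((-1 : ℤ) : WithBot ℤ) + ((2 : ℤ) : WithBot ℤ) := add_le_add (n3 h) le_rfl
      _ = ((1 : ℤ) : WithBot ℤ) := rfl
  · exact WithBot.coe_le_coe.2 (by norm_num)

theorem hone (h : Setup q π a ν) : ∀ i, i ≠ 0 → ν (a i) ≤ 1 := by
  have h1 : ((-1 : ℤ) : WithBot ℤ) ≤ 1 := WithBot.coe_le_coe.2 (by norm_num)
  intro i hi
  fin_cases i
  · exact absurd rfl hi
  · exact h.n1.le
  · exact (n2 h).trans h1
  · exact (n3 h).trans h1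
  · exact n4 h

theorem sum5 (g : ZMod 5 → D) : ∑ i, g i = g 0 + g 1 + g 2 + g 3 + g 4 := Fin.sum_univ_five _

/-- Linear independence over the invariants, with five variables. -/
theorem indep5 (h : Setup q π a ν) (r0 r1 r2 r3 r4 r5 : D) (h0 : π r0 = r0) (h1 : π r1 = r1)
    (h2 : π r2 = r2) (h3 : π r3 = r3) (h4 : π r4 = r4) (h5 : π r5 = r5)
    (e : r0 * a 0 + r1 * a 1 + r2 * a 2 + r3 * a 3 + r4 * a 4 + r5 = 0) :
    r0 = r3 ∧ r1 = r3 ∧ r2 = r3 ∧ r4 = r3 ∧ r5 = -(r3 * (a 0 + a 1 + a 2 + a 3 + a 4)) := by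
  let r : ZMod 5 → D := ![r0, r1, r2, r3, r4]
  have hr : ∀ i, π.toRingEquiv (r i) = r i := by
    intro i
    fin_cases i
    · exact h0
    · exact h1
    · exact h2
    · exact h3
    · exact h4
  have := indep π.toRingEquiv a h.shift h.deg h.n0 (hone h) r r5 hr h5 (by
    rw [sum5]
    exact e)
  rw [sum5] at this
  exact ⟨this.1 0, this.1 1, this.1 2, this.1 4, this.2⟩

/-- The invariant coefficients of the products of adjacent generators. -/
structure Coef (q : k) (π : D ≃ₐ[k] D) (a : ZMod 5 → D) (f B1 s1 s2 B4 : D) : Prop where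
  hf : π f = f
  hB1 : π B1 = B1
  hs1 : π s1 = s1
  hs2 : π s2 = s2
  hB4 : π B4 = B4
  eq : ∀ i, a i * a (i + 1) = rhs q f B1 s1 s2 B4 (a i) (a (i + 1)) (a (i + 2)) (a (i + 4))

theorem exists_coef (h : Setup q π a ν) : ∃ f B1 s1 s2 B4 : D, Coef q π a f B1 s1 s2 B4 := by
  obtain ⟨c, hc, hc'⟩ := solve π.toRingEquiv a h.shift h.deg h.n0 (hone h)
    (fun n => a n * a (n + 1)) (by
      intro n
      change π (a n * a (n + 1)) = _
      rw [map_mul, h.shift, h.shift])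
  have hc1 : ∀ i, π (c i) = c i := hc
  have hT : π (a 0 + a 1 + a 2 + a 3 + a 4) = a 0 + a 1 + a 2 + a 3 + a 4 := by
    simp only [map_add, h.shift]
    rw [show (0 : ZMod 5) + 1 = 1 from rfl, show (1 : ZMod 5) + 1 = 2 from rfl,
      show (2 : ZMod 5) + 1 = 3 from rfl, show (3 : ZMod 5) + 1 = 4 from rfl,
      show (4 : ZMod 5) + 1 = 0 from rfl]
    abel
  have hq := h.q0
  have hT' : ∀ n, a n + a (n + 1) + a (n + 2) + a (n + 3) + a (n + 4) =
      a 0 + a 1 + a 2 + a 3 + a 4 := by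
    intro n
    induction n using zmod5_induction with
    | h0 => simp only [zero_add]
    | hs n ih =>
      rw [← hT, ← ih]
      simp only [map_add, h.shift]
      simp only [add_right_comm _ _ (1 : ZMod 5)]
  refine ⟨c 3 * (a 0 + a 1 + a 2 + a 3 + a 4), q⁻¹ • (c 1 - c 3 + 1) + -(q⁻¹ • (c 2 - c 3)),
    -(q⁻¹ • (c 2 - c 3)), -(q⁻¹ • (c 4 - c 3)), q⁻¹ • (c 0 - c 3 + 1) + -(q⁻¹ • (c 4 - c 3)),
    ?_, ?_, ?_, ?_, ?_, ?_⟩
  · rw [map_mul, hT, hc1]
  · simp only [map_add, map_neg, map_smul, map_sub, hc1, map_one]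
  · simp only [map_neg, map_smul, map_sub, hc1]
  · simp only [map_neg, map_smul, map_sub, hc1]
  · simp only [map_add, map_neg, map_smul, map_sub, hc1, map_one]
  · intro i
    have e := hc' i
    rw [sum5, zero_add, add_comm 1 i, add_comm 2 i, add_comm 3 i, add_comm 4 i] at e
    rw [← e, rhs, ← hT' i]
    simp only [add_mul, sub_mul, mul_add, smul_mul_assoc, smul_add, smul_sub, smul_smul, neg_mul,
      smul_neg, mul_inv_cancel₀ hq, one_smul, one_mul]
    abel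

theorem tab (h : Setup q π a ν) {f B1 s1 s2 B4 : D} (hC : Coef q π a f B1 s1 s2 B4) :
    Tab q (a 0) (a 1) (a 2) (a 3) (a 4) f B1 s1 s2 B4 (a 0 + a 1 + a 2 + a 3 + a 4) := by
  have hq := h.q0
  have hcomm : ∀ i, a (i + 1) * a i = q⁻¹ • (a i * a (i + 1)) := by
    intro i
    rw [h.cyc.comm, smul_smul, inv_mul_cancel₀ hq, one_smul]
  constructor
  · exact hq
  · exact hC.eq 0
  · exact hC.eq 1
  · exact hC.eq 2
  · exact hC.eq 3
  · exact hC.eq 4
  · exact hcomm 0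
  · exact hcomm 1
  · exact hcomm 4
  · exact h.cyc.diag 0
  · exact h.cyc.diag 1
  · exact h.cyc.diag 2
  · exact h.cyc.diag 3
  · exact h.cyc.diag 4
  · exact h.cyc.diag' 0
  · exact h.cyc.diag' 1
  · rfl

/-- The relations between the invariants. -/
structure RelI (q : k) (s1 s2 B1 B4 f T : D) : Prop where
  rT : T = (-2 * q⁻¹ - 1) • (1 : D) + (q - 1) • B1 + B4 + (1 - q) • s1 + (q - 1) • s2 +
    q • (B1 * B4) - q • (B1 * s2) + s1 * s1 - s1 * s2
  rf : f = -(q • (q⁻¹ • (1 : D) - B1 + (-q⁻¹ - q) • s1 + q • s2 + q • (B1 * B1) -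
    q • (B1 * s1) + s1 * B4 - s1 * T + s1 * s1 - s1 * s2))
  rB4 : B4 = B1 * s2 - q⁻¹ • (s1 * s1)
  rB4' : B4 = q • (s2 * B1) - q ^ 2 • (s1 * s1)
  rB4s : B4 * s1 = q • (s2 * s2) + q⁻¹ ^ 2 • B1
  rss : s2 * s1 = q • (s1 * s2) + (q⁻¹ ^ 2 - q⁻¹) • (1 : D)

theorem rels (h : Setup q π a ν) {f B1 s1 s2 B4 : D} (hC : Coef q π a f B1 s1 s2 B4) :
    RelI q s1 s2 B1 B4 f (a 0 + a 1 + a 2 + a 3 + a 4) := by
  have hq := h.q0
  have ht := tab h hC
  have hT : π (a 0 + a 1 + a 2 + a 3 + a 4) = a 0 + a 1 + a 2 + a 3 + a 4 := by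
    simp only [map_add, h.shift]
    rw [show (0 : ZMod 5) + 1 = 1 from rfl, show (1 : ZMod 5) + 1 = 2 from rfl,
      show (2 : ZMod 5) + 1 = 3 from rfl, show (3 : ZMod 5) + 1 = 4 from rfl,
      show (4 : ZMod 5) + 1 = 0 from rfl]
    abel
  obtain ⟨A0, A1, A2, A4, -⟩ := indep5 h _ _ _ _ _ _
    (by simp only [map_add, map_sub, map_neg, map_smul, map_mul, map_one, hC.hf, hC.hB1, hC.hs1, hC.hs2, hC.hB4, hT])
    (by simp only [map_add, map_sub, map_neg, map_smul, map_mul, map_one, hC.hf, hC.hB1, hC.hs1, hC.hs2, hC.hB4, hT])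
    (by simp only [map_add, map_sub, map_neg, map_smul, map_mul, map_one, hC.hf, hC.hB1, hC.hs1, hC.hs2, hC.hB4, hT])
    (by simp only [map_add, map_sub, map_neg, map_smul, map_mul, map_one, hC.hf, hC.hB1, hC.hs1, hC.hs2, hC.hB4, hT])
    (by simp only [map_add, map_sub, map_neg, map_smul, map_mul, map_one, hC.hf, hC.hB1, hC.hs1, hC.hs2, hC.hB4, hT])
    (by simp only [map_add, map_sub, map_neg, map_smul, map_mul, map_one, hC.hf, hC.hB1, hC.hs1, hC.hs2, hC.hB4, hT])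
    (relA ht)
  obtain ⟨-, -, C2, C4, -⟩ := indep5 h _ _ _ _ _ _
    (by simp only [map_add, map_sub, map_neg, map_smul, map_mul, map_one, hC.hf, hC.hB1, hC.hs1, hC.hs2, hC.hB4, hT])
    (by simp only [map_add, map_sub, map_neg, map_smul, map_mul, map_one, hC.hf, hC.hB1, hC.hs1, hC.hs2, hC.hB4, hT])
    (by simp only [map_add, map_sub, map_neg, map_smul, map_mul, map_one, hC.hf, hC.hB1, hC.hs1, hC.hs2, hC.hB4, hT])
    (by simp only [map_add, map_sub, map_neg, map_smul, map_mul, map_one, hC.hf, hC.hB1, hC.hs1, hC.hs2, hC.hB4, hT])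
    (by simp only [map_add, map_sub, map_neg, map_smul, map_mul, map_one, hC.hf, hC.hB1, hC.hs1, hC.hs2, hC.hB4, hT])
    (by simp only [map_add, map_sub, map_neg, map_smul, map_mul, map_one, hC.hf, hC.hB1, hC.hs1, hC.hs2, hC.hB4, hT])
    (relB ht)
  obtain ⟨-, -, G2, -, -⟩ := indep5 h _ _ _ _ _ _
    (by simp only [map_add, map_sub, map_neg, map_smul, map_mul, map_one, hC.hf, hC.hB1, hC.hs1, hC.hs2, hC.hB4, hT])
    (by simp only [map_add, map_sub, map_neg, map_smul, map_mul, map_one, hC.hf, hC.hB1, hC.hs1, hC.hs2, hC.hB4, hT])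
    (by simp only [map_add, map_sub, map_neg, map_smul, map_mul, map_one, hC.hf, hC.hB1, hC.hs1, hC.hs2, hC.hB4, hT])
    (by simp only [map_add, map_sub, map_neg, map_smul, map_mul, map_one, hC.hf, hC.hB1, hC.hs1, hC.hs2, hC.hB4, hT])
    (by simp only [map_add, map_sub, map_neg, map_smul, map_mul, map_one, hC.hf, hC.hB1, hC.hs1, hC.hs2, hC.hB4, hT])
    (by simp only [map_add, map_sub, map_neg, map_smul, map_mul, map_one, hC.hf, hC.hB1, hC.hs1, hC.hs2, hC.hB4, hT])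
    (relD ht)
  generalize a 0 + a 1 + a 2 + a 3 + a 4 = T at *
  constructor
  · linear_combination (norm := (match_scalars <;> field_simp <;> ring)) -A0
  · linear_combination (norm := (match_scalars <;> field_simp <;> ring)) q • A1
  · linear_combination (norm := (match_scalars <;> field_simp <;> ring)) q⁻¹ • A4
  · linear_combination (norm := (match_scalars <;> field_simp <;> ring)) C2
  · linear_combination (norm := (match_scalars <;> field_simp <;> ring)) q⁻¹ • G2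
  · linear_combination (norm := (match_scalars <;> field_simp <;> ring)) (-q⁻¹) • C4

end

end Pool.Agent.N921.QDU.Core
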