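import Pool.Agent.N921.QDU.Main

set_option autoImplicit false
set_option linter.all false

/-!
# The automorphism and its fixed ring
-/

namespace Pool.Agent.N921.QDU.Core

open Pool.Agent.N921.QD Pool.Agent.N921.QDU.Lin Pool.Agent.N921.QDU.Gen Pool.Agent.N921.QDU.Rel

variable {k : Type*} [Field k] {q : k} {D : Type*} [DivisionRing D] [Algebra k D] {x y : D}

/-- The setting from a `q`-division ring. -/
theorem exists_setup (hq : q ≠ 0) (hroot : ∀ n : ℕ, 0 < n → q ^ n ≠ 1) (hD : IsQ k q D x y)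
    (π : D ≃ₐ[k] D) (hx : π x = y) (hy : π y = x⁻¹ * (y + algebraMap k D q⁻¹)) :
    ∃ a : ZMod 5 → D, ∃ ν : D → WithBot ℤ, Setup q π a ν ∧ a 0 = x ∧ a 1 = y := by
  obtain ⟨ν, h1, h2, h3, h4, h5, h6⟩ := Pool.Agent.N921.QDU.Val.t_val q hq x y hD
  refine ⟨gen π.toAlgHom x, ν, ⟨hq, hroot, ?_, ?_, ⟨h1, h2, h3, ?_⟩, h6, h4, ?_⟩, rfl, ?_⟩
  · exact gen_cyc hD hq π.toAlgHom hx hy
  · exact gen_shift hD hq π.toAlgHom hx hy
  · have := h6 (-1) (by simp)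
    rwa [map_neg, map_one] at this
  · change ν (π x) = 1
    rw [hx, h5]
  · exact hx

/-- The endomorphism. -/
theorem exists_psi (hq : q ≠ 0) (hroot : ∀ n : ℕ, 0 < n → q ^ n ≠ 1) (hD : IsQ k q D x y) :
    ∃ ψ : D →ₐ[k] D, ψ x = y ∧ ψ y = x⁻¹ * (y + algebraMap k D q⁻¹) := by
  have hx0 := x_ne hD
  have hy0 := y_ne hD
  obtain ⟨ν, h1, h2, h3, h4, h5, h6⟩ := Pool.Agent.N921.QDU.Val.t_val q hq x y hD
  apply Pool.Agent.N921.QDU.Univ.t_univ q hq hroot x y hD y _ hy0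
  · apply mul_ne_zero (inv_ne_zero hx0)
    intro h
    have e : y = algebraMap k D (-q⁻¹) := by
      rw [map_neg]
      exact eq_neg_of_add_eq_zero_left h
    rw [e, h6 _ (neg_ne_zero.2 (inv_ne_zero hq))] at h5
    have h7 : ((0 : ℤ) : WithBot ℤ) = ((1 : ℤ) : WithBot ℤ) := h5
    have := WithBot.coe_inj.1 h7
    omega
  · have hxy : x * y = q • (y * x) := by rw [hD.rel, Algebra.smul_def]
    have e1 : y * x⁻¹ = q • (x⁻¹ * y) := by
      have : x⁻¹ * (x * y) * x⁻¹ = x⁻¹ * (q • (y * x)) * x⁻¹ := by rw [hxy]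
      rw [inv_mul_cancel_left₀ hx0, mul_smul_comm, smul_mul_assoc, mul_assoc, mul_assoc,
        mul_inv_cancel₀ hx0, mul_one] at this
      exact this
    rw [← Algebra.smul_def, ← mul_assoc, e1, smul_mul_assoc, mul_assoc, mul_assoc]
    congr 2
    rw [mul_add, add_mul, Algebra.commutes]

theorem psi_five (hq : q ≠ 0) (hD : IsQ k q D x y) (ψ : D →ₐ[k] D) (hx : ψ x = y)
    (hy : ψ y = x⁻¹ * (y + algebraMap k D q⁻¹)) (d : D) : ψ (ψ (ψ (ψ (ψ d)))) = d := by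
  have h5 : ψ (ψ (ψ (ψ (ψ x)))) = x := b_five hD hq ψ hx hy
  have : ψ.comp (ψ.comp (ψ.comp (ψ.comp ψ))) = AlgHom.id k D := by
    apply hom_ext hD
    · exact h5
    · change ψ (ψ (ψ (ψ (ψ y)))) = y
      rw [← hx, h5]
  exact DFunLike.congr_fun this d

theorem exists_pi (hq : q ≠ 0) (hroot : ∀ n : ℕ, 0 < n → q ^ n ≠ 1) (hD : IsQ k q D x y) :
    ∃ π : D ≃ₐ[k] D, π x = y ∧ π y = x⁻¹ * (y + algebraMap k D q⁻¹) ∧ orderOf π = 5 := by
  obtain ⟨ψ, hx, hy⟩ := exists_psi hq hroot hD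
  have h5 := psi_five hq hD ψ hx hy
  let π : D ≃ₐ[k] D := AlgEquiv.ofAlgHom ψ (ψ.comp (ψ.comp (ψ.comp ψ)))
    (by ext d; exact h5 d) (by ext d; exact h5 d)
  have hπ : ∀ d, π d = ψ d := fun d => rfl
  refine ⟨π, hx, hy, ?_⟩
  haveI : Fact (Nat.Prime 5) := ⟨by norm_num⟩
  apply orderOf_eq_prime
  · ext d
    change (π ^ 5) d = d
    simp only [pow_succ, pow_zero, one_mul, AlgEquiv.mul_apply, hπ]
    exact h5 d
  · intro h
    have e : y = x := by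
      rw [← hx, ← hπ, h]
      rfl
    obtain ⟨ν, h1, h2, h3, h4, h5, h6⟩ := Pool.Agent.N921.QDU.Val.t_val q hq x y hD
    rw [e, h4] at h5
    have h7 : ((2 : ℤ) : WithBot ℤ) = ((1 : ℤ) : WithBot ℤ) := h5
    have := WithBot.coe_inj.1 h7
    omega

theorem pi_unique (hD : IsQ k q D x y) (π π' : D ≃ₐ[k] D) (hx : π x = π' x) (hy : π y = π' y) :
    π = π' := by
  have := hom_ext hD π.toAlgHom π'.toAlgHom hx hy
  ext d
  exact DFunLike.congr_fun this d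

theorem main (hq : q ≠ 0) (hroot : ∀ n : ℕ, 0 < n → q ^ n ≠ 1) (hD : IsQ k q D x y)
    (π : D ≃ₐ[k] D) (hx : π x = y) (hy : π y = x⁻¹ * (y + algebraMap k D q⁻¹)) :
    ∃ φ : D →ₐ[k] D, Function.Injective φ ∧ ∀ d, π d = d ↔ d ∈ φ.range := by
  obtain ⟨a, ν, h, ha0, ha1⟩ := exists_setup hq hroot hD π hx hy
  exact fixed_eq_range x y hD h ha0 ha1

end Pool.Agent.N921.QDU.Core
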