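import Pool.Agent.N921.QD.Def

/-!
# Project QD, part UNIV: universal property of the q-division ring (helper933 for helper921)
-/

set_option autoImplicit false
set_option linter.all false

namespace Pool.Agent.N921.QDU.Univ

open Pool.Agent.N921.QD

section Mon

variable {k : Type*} [Field k] {A : Type*} [Ring A] [Algebra k A]

theorem comm1 (u v : A) (r : k) (h : v * u = r • (u * v)) (i : ℕ) :
    v * u ^ i = r ^ i • (u ^ i * v) := by
  induction i with
  | zero => simp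
  | succ i ih =>
    rw [pow_succ, ← mul_assoc, ih, smul_mul_assoc, mul_assoc, h, mul_smul_comm, smul_smul,
      ← mul_assoc, ← pow_succ, ← pow_succ]

theorem comm (u v : A) (r : k) (h : v * u = r • (u * v)) (i j : ℕ) :
    v ^ j * u ^ i = r ^ (j * i) • (u ^ i * v ^ j) := by
  induction j with
  | zero => simp
  | succ j ih =>
    rw [pow_succ, mul_assoc, comm1 u v r h i, mul_smul_comm, ← mul_assoc, ih, smul_mul_assoc,
      smul_smul, mul_assoc, ← pow_succ, ← pow_add]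
    congr 2
    ring

theorem adjoin_span (u v : A) (r : k) (h : v * u = r • (u * v)) :
    ∀ p ∈ Algebra.adjoin k {u, v},
      p ∈ Submodule.span k (Set.range fun m : ℕ × ℕ => u ^ m.1 * v ^ m.2) := by
  have hmul : Submodule.span k (Set.range fun m : ℕ × ℕ => u ^ m.1 * v ^ m.2) *
      Submodule.span k (Set.range fun m : ℕ × ℕ => u ^ m.1 * v ^ m.2) ≤
      Submodule.span k (Set.range fun m : ℕ × ℕ => u ^ m.1 * v ^ m.2) := by
    rw [Submodule.span_mul_span, Submodule.span_le]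
    rintro _ ⟨_, ⟨⟨i, j⟩, rfl⟩, _, ⟨⟨i', j'⟩, rfl⟩, rfl⟩
    have e : u ^ i * v ^ j * (u ^ i' * v ^ j') =
        r ^ (j * i') • (u ^ (i + i') * v ^ (j + j')) := by
      calc u ^ i * v ^ j * (u ^ i' * v ^ j') = u ^ i * (v ^ j * u ^ i') * v ^ j' := by
            simp only [mul_assoc]
        _ = u ^ i * (r ^ (j * i') • (u ^ i' * v ^ j)) * v ^ j' := by rw [comm u v r h]
        _ = _ := by
          rw [mul_smul_comm, smul_mul_assoc, pow_add, pow_add]
          simp only [mul_assoc]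
    show u ^ i * v ^ j * (u ^ i' * v ^ j') ∈ _
    rw [e]
    exact Submodule.smul_mem _ _ (Submodule.subset_span ⟨(i + i', j + j'), rfl⟩)
  intro p hp
  induction hp using Algebra.adjoin_induction with
  | mem x hx =>
    rcases hx with rfl | rfl
    · exact Submodule.subset_span ⟨(1, 0), by simp⟩
    · exact Submodule.subset_span ⟨(0, 1), by simp⟩
  | algebraMap c =>
    rw [Algebra.algebraMap_eq_smul_one]
    exact Submodule.smul_mem _ _ (Submodule.subset_span ⟨(0, 0), by simp⟩)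
  | add x y _ _ hx hy => exact Submodule.add_mem _ hx hy
  | mul x y _ _ hx hy => exact hmul (Submodule.mul_mem_mul hx hy)

end Mon

section Ind

variable {k : Type*} [Field k] {E : Type*} [DivisionRing E] [Algebra k E]

theorem pow_inj (q : k) (hq : q ≠ 0) (hroot : ∀ n : ℕ, 0 < n → q ^ n ≠ 1) (a b : ℕ)
    (h : q ^ a = q ^ b) : a = b := by
  rcases le_total a b with hab | hab
  · obtain ⟨c, rfl⟩ := Nat.exists_eq_add_of_le hab
    rcases Nat.eq_zero_or_pos c with hc | hc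
    · omega
    · exfalso
      apply hroot c hc
      rw [pow_add] at h
      have h1 : q ^ a ≠ 0 := pow_ne_zero _ hq
      exact (mul_eq_left₀ h1).1 h.symm
  · obtain ⟨c, rfl⟩ := Nat.exists_eq_add_of_le hab
    rcases Nat.eq_zero_or_pos c with hc | hc
    · omega
    · exfalso
      apply hroot c hc
      rw [pow_add] at h
      have h1 : q ^ b ≠ 0 := pow_ne_zero _ hq
      exact (mul_eq_left₀ h1).1 h

theorem indepE (q : k) (hq : q ≠ 0) (hroot : ∀ n : ℕ, 0 < n → q ^ n ≠ 1) (X Y : E) (hX : X ≠ 0)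
    (hY : Y ≠ 0) (h : X * Y = q • (Y * X)) :
    LinearIndependent k (fun m : ℕ × ℕ => X ^ m.1 * Y ^ m.2) := by
  have h' : Y * X = q⁻¹ • (X * Y) := by
    rw [h, smul_smul, inv_mul_cancel₀ hq, one_smul]
  rw [linearIndependent_iff_finset_linearIndependent]
  intro s
  obtain ⟨N, hN⟩ : ∃ N, N = s.sup Prod.snd + 1 := ⟨_, rfl⟩
  have hsN : ∀ m ∈ s, m.2 < N := by
    intro m hm
    rw [hN]
    exact Nat.lt_succ_of_le (Finset.le_sup (f := Prod.snd) hm)
  obtain ⟨g, hg⟩ : ∃ g, g = X * Y ^ N := ⟨_, rfl⟩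
  have hg0 : g ≠ 0 := by
    rw [hg]
    exact mul_ne_zero hX (pow_ne_zero _ hY)
  have key : ∀ i j : ℕ, g * (X ^ i * Y ^ j) * g⁻¹ = (q⁻¹ ^ (N * i) * q ^ j) • (X ^ i * Y ^ j) := by
    intro i j
    have e : g * (X ^ i * Y ^ j) = (q⁻¹ ^ (N * i) * q ^ j) • ((X ^ i * Y ^ j) * g) := by
      calc g * (X ^ i * Y ^ j) = X * (Y ^ N * X ^ i) * Y ^ j := by
            rw [hg]
            simp only [mul_assoc]
        _ = X * (q⁻¹ ^ (N * i) • (X ^ i * Y ^ N)) * Y ^ j := by rw [comm X Y q⁻¹ h']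
        _ = q⁻¹ ^ (N * i) • ((X * X ^ i) * (Y ^ N * Y ^ j)) := by
          rw [mul_smul_comm, smul_mul_assoc]
          simp only [mul_assoc]
        _ = q⁻¹ ^ (N * i) • ((X ^ i * (X * Y ^ j)) * Y ^ N) := by
          rw [← pow_succ', pow_succ, ← pow_add, add_comm N j, pow_add]
          simp only [mul_assoc]
        _ = q⁻¹ ^ (N * i) • ((X ^ i * (q ^ j • (Y ^ j * X))) * Y ^ N) := by
          rw [comm1 Y X q h]
        _ = _ := by
          rw [mul_smul_comm, smul_mul_assoc, smul_smul, hg]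
          simp only [mul_assoc]
    rw [e, smul_mul_assoc, mul_assoc, mul_inv_cancel₀ hg0, mul_one]
  obtain ⟨T, hT⟩ : ∃ T : Module.End k E, ∀ z, T z = g * z * g⁻¹ :=
    ⟨(LinearMap.mulRight k g⁻¹).comp (LinearMap.mulLeft k g), fun z => rfl⟩
  refine Module.End.eigenvectors_linearIndependent' T
    (fun m : s => q⁻¹ ^ (N * m.1.1) * q ^ m.1.2) ?_ _ ?_
  · rintro ⟨⟨i, j⟩, hm⟩ ⟨⟨i', j'⟩, hm'⟩ he
    simp only at he
    have hj := hsN _ hm
    have hj' := hsN _ hm'
    simp only at hj hj'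
    have e1 : q ^ (j + N * i') = q ^ (j' + N * i) := by
      have hq1 : q ^ (N * i) ≠ 0 := pow_ne_zero _ hq
      have hq2 : q ^ (N * i') ≠ 0 := pow_ne_zero _ hq
      rw [inv_pow, inv_pow] at he
      field_simp at he
      rw [pow_add, pow_add]
      linear_combination he
    have e2 := pow_inj q hq hroot _ _ e1
    have e3 : j = j' := by
      have h3 := congrArg (fun n => n % N) e2
      simp only [Nat.add_mul_mod_self_left, Nat.mod_eq_of_lt hj, Nat.mod_eq_of_lt hj'] at h3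
      exact h3
    subst e3
    have e4 : N * i' = N * i := by omega
    have e5 : i' = i := Nat.eq_of_mul_eq_mul_left (by omega) e4
    subst e5
    rfl
  · rintro ⟨⟨i, j⟩, hm⟩
    refine ⟨Module.End.mem_eigenspace_iff.2 ?_, mul_ne_zero (pow_ne_zero _ hX)
      (pow_ne_zero _ hY)⟩
    rw [hT]
    exact key i j

end Ind

theorem t_univ {k : Type*} [Field k] (q : k) (hq : q ≠ 0) (hroot : ∀ n : ℕ, 0 < n → q ^ n ≠ 1)
    {D : Type*} [DivisionRing D] [Algebra k D] (x y : D) (hD : Pool.Agent.N921.QD.IsQ k q D x y)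
    {E : Type*} [DivisionRing E] [Algebra k E] (X Y : E) (hX : X ≠ 0) (hY : Y ≠ 0)
    (hXY : X * Y = algebraMap k E q * (Y * X)) : ∃ φ : D →ₐ[k] E, φ x = X ∧ φ y = Y := by
  have hxy : x * y = q • (y * x) := by
    rw [hD.rel, Algebra.smul_def]
  have hXY' : X * Y = q • (Y * X) := by
    rw [hXY, Algebra.smul_def]
  obtain ⟨u, hu⟩ : ∃ u : D × E, u = (x, X) := ⟨_, rfl⟩
  obtain ⟨v, hv⟩ : ∃ v : D × E, v = (y, Y) := ⟨_, rfl⟩
  have huv : v * u = q⁻¹ • (u * v) := by
    have h1 : u * v = q • (v * u) := by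
      rw [hu, hv]
      exact Prod.ext hxy hXY'
    rw [h1, smul_smul, inv_mul_cancel₀ hq, one_smul]
  obtain ⟨P, hP⟩ : ∃ P : Subalgebra k (D × E), P = Algebra.adjoin k {u, v} := ⟨_, rfl⟩
  -- (2)
  have key : ∀ p ∈ P, (p.1 = 0 ↔ p.2 = 0) := by
    intro p hp
    rw [hP] at hp
    have h1 := adjoin_span u v q⁻¹ huv p hp
    rw [Finsupp.mem_span_range_iff_exists_finsupp] at h1
    obtain ⟨c, hc⟩ := h1
    have e0 : p = Finsupp.linearCombination k (fun m : ℕ × ℕ => u ^ m.1 * v ^ m.2) c := by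
      rw [Finsupp.linearCombination_apply, hc]
    have e1 : p.1 = Finsupp.linearCombination k (fun m : ℕ × ℕ => x ^ m.1 * y ^ m.2) c := by
      have h2 := Finsupp.apply_linearCombination k (LinearMap.fst k D E)
        (fun m : ℕ × ℕ => u ^ m.1 * v ^ m.2) c
      rw [← e0] at h2
      have h3 : (⇑(LinearMap.fst k D E) ∘ fun m : ℕ × ℕ => u ^ m.1 * v ^ m.2) =
          fun m : ℕ × ℕ => x ^ m.1 * y ^ m.2 := by
        funext m
        rw [hu, hv]
        simp
      rw [show p.1 = LinearMap.fst k D E p from rfl, h2, h3]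
    have e2 : p.2 = Finsupp.linearCombination k (fun m : ℕ × ℕ => X ^ m.1 * Y ^ m.2) c := by
      have h2 := Finsupp.apply_linearCombination k (LinearMap.snd k D E)
        (fun m : ℕ × ℕ => u ^ m.1 * v ^ m.2) c
      rw [← e0] at h2
      have h3 : (⇑(LinearMap.snd k D E) ∘ fun m : ℕ × ℕ => u ^ m.1 * v ^ m.2) =
          fun m : ℕ × ℕ => X ^ m.1 * Y ^ m.2 := by
        funext m
        rw [hu, hv]
        simp
      rw [show p.2 = LinearMap.snd k D E p from rfl, h2, h3]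
    constructor
    · intro h
      have h3 := (linearIndependent_iff.1 hD.indep) c (e1.symm.trans h)
      rw [e2, h3, map_zero]
    · intro h
      have h3 := (linearIndependent_iff.1 (indepE q hq hroot X Y hX hY hXY')) c (e2.symm.trans h)
      rw [e1, h3, map_zero]
  -- lifting
  have lift : ∀ a ∈ Algebra.adjoin k {x, y}, ∃ p ∈ P, p.1 = a := by
    intro a ha
    have h1 : P.map (AlgHom.fst k D E) = Algebra.adjoin k {x, y} := by
      rw [hP, AlgHom.map_adjoin, Set.image_pair, hu, hv]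
      rfl
    rw [← h1] at ha
    obtain ⟨p, hp, rfl⟩ := ha
    exact ⟨p, hp, rfl⟩
  have eqz : ∀ p ∈ P, p.1 = 0 → p = 0 := fun p hp h => Prod.ext h ((key p hp).1 h)
  -- (3)
  have ore : ∀ p ∈ P, ∀ s ∈ P, s.1 ≠ 0 → ∃ p' ∈ P, ∃ s' ∈ P, s'.1 ≠ 0 ∧ p * s' = s * p' := by
    intro p hp s hs hs0
    obtain ⟨a, b, ha, hb, hb0, hab⟩ := hD.frac (s.1⁻¹ * p.1)
    obtain ⟨p', hp', rfl⟩ := lift a ha
    obtain ⟨s', hs', rfl⟩ := lift b hb
    refine ⟨p', hp', s', hs', hb0, ?_⟩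
    rw [← sub_eq_zero]
    apply eqz _ (P.sub_mem (P.mul_mem hp hs') (P.mul_mem hs hp'))
    rw [Prod.fst_sub, Prod.fst_mul, Prod.fst_mul, sub_eq_zero]
    calc p.1 * s'.1 = s.1 * (s.1⁻¹ * p.1) * s'.1 := by rw [mul_inv_cancel_left₀ hs0]
      _ = s.1 * (p'.1 * s'.1⁻¹) * s'.1 := by rw [hab]
      _ = s.1 * p'.1 := by rw [mul_assoc, inv_mul_cancel_right₀ hb0]
  -- the fractions
  obtain ⟨Q, hQ⟩ : ∃ Q : Subalgebra k (D × E), ∀ z, z ∈ Q ↔ ∃ s ∈ P, s.1 ≠ 0 ∧ z * s ∈ P := by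
    refine ⟨{ carrier := {z | ∃ s ∈ P, s.1 ≠ 0 ∧ z * s ∈ P}
              mul_mem' := ?_
              add_mem' := ?_
              algebraMap_mem' := ?_ }, fun z => Iff.rfl⟩
    · rintro z₁ z₂ ⟨s₁, h1, h2, h3⟩ ⟨s₂, h4, h5, h6⟩
      obtain ⟨p', hp', s', hs', h7, h8⟩ := ore _ h6 s₁ h1 h2
      refine ⟨s₂ * s', P.mul_mem h4 hs', mul_ne_zero h5 h7, ?_⟩
      have e : z₁ * z₂ * (s₂ * s') = (z₁ * s₁) * p' := by
        calc z₁ * z₂ * (s₂ * s') = z₁ * (z₂ * s₂ * s') := by simp only [mul_assoc]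
          _ = z₁ * (s₁ * p') := by rw [h8]
          _ = _ := by rw [mul_assoc]
      rw [e]
      exact P.mul_mem h3 hp'
    · rintro z₁ z₂ ⟨s₁, h1, h2, h3⟩ ⟨s₂, h4, h5, h6⟩
      obtain ⟨p', hp', s', hs', h7, h8⟩ := ore _ h1 s₂ h4 h5
      refine ⟨s₁ * s', P.mul_mem h1 hs', mul_ne_zero h2 h7, ?_⟩
      have e : (z₁ + z₂) * (s₁ * s') = (z₁ * s₁) * s' + (z₂ * s₂) * p' := by
        rw [add_mul]
        congr 1
        · rw [mul_assoc]
        · rw [h8, mul_assoc]
      rw [e]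
      exact P.add_mem (P.mul_mem h3 hs') (P.mul_mem h6 hp')
    · intro c
      refine ⟨1, P.one_mem, one_ne_zero, ?_⟩
      rw [mul_one]
      exact P.algebraMap_mem c
  have hbij : Function.Bijective ((AlgHom.fst k D E).comp Q.val) := by
    constructor
    · rw [injective_iff_map_eq_zero]
      rintro ⟨z, hz⟩ h0
      have h0' : z.1 = 0 := h0
      obtain ⟨s, h1, h2, h3⟩ := (hQ z).1 hz
      have h4 : (z * s).2 = 0 := by
        refine (key _ h3).1 ?_
        rw [Prod.fst_mul, h0', zero_mul]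
      have h5 : s.2 ≠ 0 := fun h => h2 ((key s h1).2 h)
      rw [Prod.snd_mul] at h4
      have h6 : z.2 = 0 := (mul_eq_zero.1 h4).resolve_right h5
      exact Subtype.ext (Prod.ext h0' h6)
    · intro d
      obtain ⟨a, b, ha, hb, hb0, hab⟩ := hD.frac d
      obtain ⟨p, hp, rfl⟩ := lift a ha
      obtain ⟨s, hs, rfl⟩ := lift b hb
      have h5 : s.2 ≠ 0 := fun h => hb0 ((key s hs).2 h)
      refine ⟨⟨(d, p.2 * s.2⁻¹), (hQ _).2 ⟨s, hs, hb0, ?_⟩⟩, rfl⟩
      have e : (d, p.2 * s.2⁻¹) * s = p := by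
        refine Prod.ext ?_ ?_
        · rw [Prod.fst_mul]
          simp only
          rw [hab, inv_mul_cancel_right₀ hb0]
        · rw [Prod.snd_mul]
          simp only
          rw [inv_mul_cancel_right₀ h5]
      rw [e]
      exact hp
  obtain ⟨e, he⟩ : ∃ e : Q ≃ₐ[k] D, ∀ z : Q, e z = z.1.1 :=
    ⟨AlgEquiv.ofBijective _ hbij, fun z => rfl⟩
  have hPQ : ∀ p ∈ P, p ∈ Q := fun p hp => (hQ p).2 ⟨1, P.one_mem, one_ne_zero, by
    rw [mul_one]
    exact hp⟩
  have huQ : (x, X) ∈ Q := by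
    apply hPQ
    rw [hP, ← hu]
    exact Algebra.subset_adjoin (Set.mem_insert _ _)
  have hvQ : (y, Y) ∈ Q := by
    apply hPQ
    rw [hP, ← hv]
    exact Algebra.subset_adjoin (Set.mem_insert_of_mem _ rfl)
  refine ⟨((AlgHom.snd k D E).comp Q.val).comp e.symm.toAlgHom, ?_, ?_⟩
  · have h1 : e.symm x = ⟨(x, X), huQ⟩ := by
      rw [AlgEquiv.symm_apply_eq, he]
    show (e.symm x).1.2 = X
    rw [h1]
  · have h1 : e.symm y = ⟨(y, Y), hvQ⟩ := by
      rw [AlgEquiv.symm_apply_eq, he]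
    show (e.symm y).1.2 = Y
    rw [h1]

end Pool.Agent.N921.QDU.Univ
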