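import Pool.Agent.N921.QD.Def

/-!
# The degree valuation on the q-division ring
-/

set_option autoImplicit false
set_option linter.all false

namespace Pool.Agent.N921.QDU.Val

open Pool.Agent.N921.QD Submodule
open scoped Pointwise

section

variable {k : Type*} [Field k] {q : k} {D : Type*} [DivisionRing D] [Algebra k D] {x y : D}

/-- the monomials -/
def mon (x y : D) (m : ℕ × ℕ) : D := x ^ m.1 * y ^ m.2

/-- the weight -/
def wt (m : ℕ × ℕ) : ℕ := 2 * m.1 + m.2

/-- the order of the exponents -/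
def LT' (m n : ℕ × ℕ) : Prop := wt m < wt n ∨ (wt m = wt n ∧ m.1 < n.1)

theorem LT'.trich {m n : ℕ × ℕ} (h : m ≠ n) : LT' m n ∨ LT' n m := by
  obtain ⟨a, b⟩ := m
  obtain ⟨c, d⟩ := n
  unfold LT' wt
  by_contra hcon
  apply h
  simp only at hcon
  have h1 : a = c := by omega
  have h2 : b = d := by omega
  rw [h1, h2]

theorem LT'.trans {m n p : ℕ × ℕ} (h : LT' m n) (h' : LT' n p) : LT' m p := by
  unfold LT' wt at *
  omega

theorem LT'.irrefl (m : ℕ × ℕ) : ¬ LT' m m := by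
  unfold LT' wt
  omega

theorem LT'.add_lt {m n m' n' : ℕ × ℕ} (h : LT' m m') (h' : LT' n n' ∨ n = n') :
    LT' (m + n) (m' + n') := by
  unfold LT' wt at *
  simp only [Prod.fst_add, Prod.snd_add]
  rcases h' with h' | rfl <;> omega

theorem LT'.add_lt' {m n m' n' : ℕ × ℕ} (h : LT' m m' ∨ m = m') (h' : LT' n n') :
    LT' (m + n) (m' + n') := by
  unfold LT' wt at *
  simp only [Prod.fst_add, Prod.snd_add]
  rcases h with h | rfl <;> omega

theorem swap (hq : q ≠ 0) (rel : x * y = algebraMap k D q * (y * x)) : y * x = q⁻¹ • (x * y) := by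
  rw [rel, ← Algebra.smul_def, smul_smul, inv_mul_cancel₀ hq, one_smul]

theorem swap_pow (hq : q ≠ 0) (rel : x * y = algebraMap k D q * (y * x)) (i j : ℕ) :
    ∃ c : k, c ≠ 0 ∧ y ^ j * x ^ i = c • (x ^ i * y ^ j) := by
  have h1 : ∀ i : ℕ, y * x ^ i = (q⁻¹) ^ i • (x ^ i * y) := by
    intro i
    induction i with
    | zero => simp
    | succ i ih =>
      rw [pow_succ, ← mul_assoc, ih, smul_mul_assoc, mul_assoc, swap hq rel, mul_smul_comm,
        smul_smul, ← pow_succ]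
      congr 1
      rw [mul_assoc]
  refine ⟨((q⁻¹) ^ i) ^ j, pow_ne_zero _ (pow_ne_zero _ (inv_ne_zero hq)), ?_⟩
  induction j with
  | zero => simp
  | succ j ih =>
    rw [pow_succ, mul_assoc, h1, mul_smul_comm, ← mul_assoc, ih, smul_mul_assoc, smul_smul,
      ← pow_succ', mul_assoc, ← pow_succ]

theorem mon_mul (hq : q ≠ 0) (rel : x * y = algebraMap k D q * (y * x)) (m n : ℕ × ℕ) :
    ∃ c : k, c ≠ 0 ∧ mon x y m * mon x y n = c • mon x y (m + n) := by
  obtain ⟨c, hc, h⟩ := swap_pow (k := k) hq rel n.1 m.2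
  refine ⟨c, hc, ?_⟩
  unfold mon
  calc x ^ m.1 * y ^ m.2 * (x ^ n.1 * y ^ n.2) = x ^ m.1 * (y ^ m.2 * x ^ n.1) * y ^ n.2 := by
        simp only [mul_assoc]
    _ = c • (x ^ (m + n).1 * y ^ (m + n).2) := by
        rw [h, mul_smul_comm, smul_mul_assoc, Prod.fst_add, Prod.snd_add, pow_add, pow_add]
        simp only [mul_assoc]

variable (k) in
/-- the span of the smaller monomials -/
def L (x y : D) (m : ℕ × ℕ) : Submodule k D := span k (mon x y '' {n | LT' n m})

variable (k) in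
/-- `m` is the leading exponent of `r` -/
def Lead (x y : D) (r : D) (m : ℕ × ℕ) : Prop := ∃ c : k, c ≠ 0 ∧ ∃ r' ∈ L k x y m, r = c • mon x y m + r'

theorem L_mono {m n : ℕ × ℕ} (h : LT' m n) : L k x y m ≤ L k x y n :=
  span_mono (Set.image_mono fun _ hp => LT'.trans hp h)

theorem mon_mem_L {m n : ℕ × ℕ} (h : LT' m n) : mon x y m ∈ L k x y n :=
  subset_span ⟨m, h, rfl⟩

theorem mon_mul_L (hq : q ≠ 0) (rel : x * y = algebraMap k D q * (y * x)) (m n : ℕ × ℕ) {s : D}
    (hs : s ∈ L k x y n) : mon x y m * s ∈ L k x y (m + n) := by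
  unfold L at hs
  induction hs using span_induction with
  | mem s hs =>
    obtain ⟨p, hp, rfl⟩ := hs
    obtain ⟨c, _, h⟩ := mon_mul hq rel m p
    rw [h]
    exact smul_mem _ _ (mon_mem_L (LT'.add_lt' (Or.inr rfl) hp))
  | zero => rw [mul_zero]; exact zero_mem _
  | add a b _ _ ha hb => rw [mul_add]; exact add_mem ha hb
  | smul c a _ ha => rw [mul_smul_comm]; exact smul_mem _ _ ha

theorem L_mul_mon (hq : q ≠ 0) (rel : x * y = algebraMap k D q * (y * x)) (m n : ℕ × ℕ) {s : D}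
    (hs : s ∈ L k x y m) : s * mon x y n ∈ L k x y (m + n) := by
  unfold L at hs
  induction hs using span_induction with
  | mem s hs =>
    obtain ⟨p, hp, rfl⟩ := hs
    obtain ⟨c, _, h⟩ := mon_mul hq rel p n
    rw [h]
    exact smul_mem _ _ (mon_mem_L (LT'.add_lt hp (Or.inr rfl)))
  | zero => rw [zero_mul]; exact zero_mem _
  | add a b _ _ ha hb => rw [add_mul]; exact add_mem ha hb
  | smul c a _ ha => rw [smul_mul_assoc]; exact smul_mem _ _ ha

theorem L_mul_L (hq : q ≠ 0) (rel : x * y = algebraMap k D q * (y * x)) (m n : ℕ × ℕ) {r s : D}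
    (hr : r ∈ L k x y m) (hs : s ∈ L k x y n) : r * s ∈ L k x y (m + n) := by
  unfold L at hs
  induction hs using span_induction with
  | mem s hs =>
    obtain ⟨p, hp, rfl⟩ := hs
    exact L_mono (LT'.add_lt' (Or.inr rfl) hp) (L_mul_mon hq rel m p hr)
  | zero => rw [mul_zero]; exact zero_mem _
  | add a b _ _ ha hb => rw [mul_add]; exact add_mem ha hb
  | smul c a _ ha => rw [mul_smul_comm]; exact smul_mem _ _ ha

theorem Lead.mul (hq : q ≠ 0) (rel : x * y = algebraMap k D q * (y * x)) {r s : D}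
    {m n : ℕ × ℕ} (hr : Lead k x y r m) (hs : Lead k x y s n) : Lead k x y (r * s) (m + n) := by
  obtain ⟨c, hc, r', hr', rfl⟩ := hr
  obtain ⟨d, hd, s', hs', rfl⟩ := hs
  obtain ⟨e, he, h⟩ := mon_mul hq rel m n
  refine ⟨c * d * e, mul_ne_zero (mul_ne_zero hc hd) he,
    c • (mon x y m * s') + d • (r' * mon x y n) + r' * s', ?_, ?_⟩
  · refine add_mem (add_mem ?_ ?_) (L_mul_L hq rel m n hr' hs')
    · exact smul_mem _ _ (mon_mul_L hq rel m n hs')
    · exact smul_mem _ _ (L_mul_mon hq rel m n hr')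
  · rw [add_mul, mul_add, mul_add, smul_mul_smul_comm, h, smul_smul, smul_mul_assoc,
      mul_smul_comm]
    abel

theorem mon_notMem (hi : LinearIndependent k (fun m : ℕ × ℕ => x ^ m.1 * y ^ m.2)) (m : ℕ × ℕ) :
    mon x y m ∉ L k x y m :=
  hi.notMem_span_image (s := {n | LT' n m}) (x := m) (LT'.irrefl m)

theorem Lead.unique (hi : LinearIndependent k (fun m : ℕ × ℕ => x ^ m.1 * y ^ m.2)) {r : D}
    {m n : ℕ × ℕ} (h : Lead k x y r m) (h' : Lead k x y r n) : m = n := by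
  have key : ∀ m n : ℕ × ℕ, Lead k x y r m → Lead k x y r n → ¬ LT' n m := by
    rintro m n ⟨c, hc, r', hr', h1⟩ ⟨d, hd, s', hs', h2⟩ hlt
    have h3 : r ∈ L k x y m := by
      rw [h2]
      exact add_mem (smul_mem _ _ (mon_mem_L hlt)) (L_mono hlt hs')
    have h4 : c • mon x y m ∈ L k x y m := by
      have : c • mon x y m = r - r' := by rw [h1]; abel
      rw [this]
      exact sub_mem h3 hr'
    apply mon_notMem hi m
    have h5 := smul_mem _ c⁻¹ h4
    rwa [smul_smul, inv_mul_cancel₀ hc, one_smul] at h5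
  by_contra hne
  rcases LT'.trich hne with h1 | h1
  · exact key n m h' h h1
  · exact key m n h h' h1

theorem Lead.ne_zero (hi : LinearIndependent k (fun m : ℕ × ℕ => x ^ m.1 * y ^ m.2)) {r : D}
    {m : ℕ × ℕ} (h : Lead k x y r m) : r ≠ 0 := by
  rintro rfl
  obtain ⟨c, hc, r', hr', h1⟩ := h
  apply mon_notMem hi m
  have h4 : c • mon x y m ∈ L k x y m := by
    have : c • mon x y m = - r' := by
      rw [eq_neg_iff_add_eq_zero, ← h1]
    rw [this]
    exact neg_mem hr'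
  have h5 := smul_mem _ c⁻¹ h4
  rwa [smul_smul, inv_mul_cancel₀ hc, one_smul] at h5

theorem exists_lead {r : D} (hr : r ∈ span k (Set.range (mon x y))) (h0 : r ≠ 0) :
    ∃ m, Lead k x y r m := by
  classical
  obtain ⟨f, hf⟩ := (Finsupp.mem_span_range_iff_exists_finsupp).1 hr
  have hne : f.support.Nonempty := by
    rw [Finset.nonempty_iff_ne_empty]
    intro h
    rw [Finsupp.support_eq_empty] at h
    rw [h, Finsupp.sum_zero_index] at hf
    exact h0 hf.symm
  obtain ⟨m, hm, hmax⟩ := f.support.exists_max_image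
    (fun m : ℕ × ℕ => (toLex (wt m, m.1) : ℕ ×ₗ ℕ)) hne
  refine ⟨m, f m, Finsupp.mem_support_iff.1 hm, ∑ n ∈ f.support.erase m, f n • mon x y n, ?_, ?_⟩
  · refine sum_mem fun n hn => smul_mem _ _ (mon_mem_L ?_)
    rw [Finset.mem_erase] at hn
    have h1 := hmax n hn.2
    rw [Prod.Lex.toLex_le_toLex] at h1
    rcases LT'.trich hn.1 with h2 | h2
    · exact h2
    · exfalso
      unfold LT' at h2
      simp only at h1
      omega
  · rw [← hf, Finsupp.sum, Finset.add_sum_erase _ (fun n => f n • mon x y n) hm]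

theorem span_mul_mem (hq : q ≠ 0) (rel : x * y = algebraMap k D q * (y * x)) {a b : D}
    (ha : a ∈ span k (Set.range (mon x y))) (hb : b ∈ span k (Set.range (mon x y))) :
    a * b ∈ span k (Set.range (mon x y)) := by
  induction ha using span_induction with
  | mem a ha =>
    obtain ⟨m, rfl⟩ := ha
    induction hb using span_induction with
    | mem b hb =>
      obtain ⟨n, rfl⟩ := hb
      obtain ⟨c, _, h⟩ := mon_mul hq rel m n
      rw [h]
      exact smul_mem _ _ (subset_span ⟨_, rfl⟩)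
    | zero => rw [mul_zero]; exact zero_mem _
    | add a b _ _ ha hb => rw [mul_add]; exact add_mem ha hb
    | smul c a _ ha => rw [mul_smul_comm]; exact smul_mem _ _ ha
  | zero => rw [zero_mul]; exact zero_mem _
  | add a b _ _ ha hb => rw [add_mul]; exact add_mem ha hb
  | smul c a _ ha => rw [smul_mul_assoc]; exact smul_mem _ _ ha

theorem adjoin_le (hq : q ≠ 0) (rel : x * y = algebraMap k D q * (y * x)) {r : D}
    (hr : r ∈ Algebra.adjoin k {x, y}) : r ∈ span k (Set.range (mon x y)) := by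
  induction hr using Algebra.adjoin_induction with
  | mem r hr =>
    rcases hr with rfl | hr
    · exact subset_span ⟨(1, 0), by simp [mon]⟩
    · rw [Set.mem_singleton_iff] at hr
      exact subset_span ⟨(0, 1), by simp [mon, hr]⟩
  | algebraMap c =>
    rw [Algebra.algebraMap_eq_smul_one]
    exact smul_mem _ _ (subset_span ⟨(0, 0), by simp [mon]⟩)
  | add a b _ _ ha hb => exact add_mem ha hb
  | mul a b _ _ ha hb => exact span_mul_mem hq rel ha hb

theorem Lead.mem {r : D} {m : ℕ × ℕ} (h : Lead k x y r m) : r ∈ span k (Set.range (mon x y)) := by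
  obtain ⟨c, _, r', hr', rfl⟩ := h
  refine add_mem (smul_mem _ _ (subset_span ⟨m, rfl⟩)) ?_
  exact span_mono (Set.image_subset_range _ _) hr'

theorem mem_L_of_lead {r : D} {m n : ℕ × ℕ} (h : Lead k x y r m) (hmn : LT' m n) :
    r ∈ L k x y n := by
  obtain ⟨c, _, r', hr', rfl⟩ := h
  exact add_mem (smul_mem _ _ (mon_mem_L hmn)) (L_mono hmn hr')

/-- the leading exponent of a sum is small -/
theorem Lead.add (hi : LinearIndependent k (fun m : ℕ × ℕ => x ^ m.1 * y ^ m.2)) {r s : D}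
    {m n p : ℕ × ℕ} (h1 : Lead k x y r m) (h2 : Lead k x y s n) (h3 : Lead k x y (r + s) p) :
    wt p ≤ max (wt m) (wt n) := by
  by_contra hcon
  rw [not_le, max_lt_iff] at hcon
  have h4 : r + s ∈ L k x y p :=
    add_mem (mem_L_of_lead h1 (Or.inl hcon.1)) (mem_L_of_lead h2 (Or.inl hcon.2))
  obtain ⟨c, hc, r', hr', h5⟩ := h3
  apply mon_notMem hi p
  have h6 : c • mon x y p ∈ L k x y p := by
    have : c • mon x y p = (r + s) - r' := by rw [h5]; abel
    rw [this]
    exact sub_mem h4 hr'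
  have h7 := smul_mem _ c⁻¹ h6
  rwa [smul_smul, inv_mul_cancel₀ hc, one_smul] at h7

variable (k) in
/-- the value of `d` is `z` -/
def V (x y : D) (d : D) (z : ℤ) : Prop := ∃ a b : D, ∃ m n : ℕ × ℕ, Lead k x y a m ∧
  Lead k x y b n ∧ d * b = a ∧ z = (wt m : ℤ) - wt n

theorem frac' (hq : q ≠ 0) (hQ : IsQ k q D x y) {d : D} (hd : d ≠ 0) :
    ∃ a b : D, ∃ m n : ℕ × ℕ, Lead k x y a m ∧ Lead k x y b n ∧ d * b = a := by
  obtain ⟨a, b, ha, hb, hb0, hd'⟩ := hQ.frac d
  have ha0 : a ≠ 0 := by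
    rintro rfl
    rw [zero_mul] at hd'
    exact hd hd'
  obtain ⟨m, hm⟩ := exists_lead (adjoin_le hq hQ.rel ha) ha0
  obtain ⟨n, hn⟩ := exists_lead (adjoin_le hq hQ.rel hb) hb0
  refine ⟨a, b, m, n, hm, hn, ?_⟩
  rw [hd', mul_assoc, inv_mul_cancel₀ hb0, mul_one]

/-- Ore condition -/
theorem ore (hq : q ≠ 0) (hQ : IsQ k q D x y) {a b : D} (ha : a ≠ 0) (hb : b ≠ 0) :
    ∃ r t : D, ∃ m n : ℕ × ℕ, Lead k x y r m ∧ Lead k x y t n ∧ a * r = b * t := by
  obtain ⟨r, t, m, n, hm, hn, h⟩ := frac' hq hQ (mul_ne_zero (inv_ne_zero ha) hb)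
  refine ⟨r, t, m, n, hm, hn, ?_⟩
  rw [← h, ← mul_assoc, ← mul_assoc, mul_inv_cancel₀ ha, one_mul]

theorem wt_add (m n : ℕ × ℕ) : wt (m + n) = wt m + wt n := by
  unfold wt
  simp only [Prod.fst_add, Prod.snd_add]
  ring

theorem V.exists (hq : q ≠ 0) (hQ : IsQ k q D x y) {d : D} (hd : d ≠ 0) : ∃ z, V k x y d z := by
  obtain ⟨a, b, m, n, hm, hn, h⟩ := frac' hq hQ hd
  exact ⟨_, a, b, m, n, hm, hn, h, rfl⟩

theorem V.ne_zero (hQ : IsQ k q D x y) {d : D} {z : ℤ} (h : V k x y d z) : d ≠ 0 := by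
  obtain ⟨a, b, m, n, hm, hn, h, _⟩ := h
  rintro rfl
  rw [zero_mul] at h
  exact hm.ne_zero hQ.indep h.symm

theorem V.unique (hq : q ≠ 0) (hQ : IsQ k q D x y) {d : D} {z z' : ℤ} (h : V k x y d z)
    (h' : V k x y d z') : z = z' := by
  obtain ⟨a, b, m, n, hm, hn, h, rfl⟩ := h
  obtain ⟨a', b', m', n', hm', hn', h', rfl⟩ := h'
  obtain ⟨r, t, p, p', hr, ht, he⟩ := ore hq hQ (hn.ne_zero hQ.indep) (hn'.ne_zero hQ.indep)
  have h1 : a * r = a' * t := by rw [← h, ← h', mul_assoc, mul_assoc, he]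
  have h2 := (hm.mul hq hQ.rel hr).unique hQ.indep (by rw [h1]; exact hm'.mul hq hQ.rel ht)
  have h3 := (hn.mul hq hQ.rel hr).unique hQ.indep (by rw [he]; exact hn'.mul hq hQ.rel ht)
  have h4 := congrArg wt h2
  have h5 := congrArg wt h3
  rw [wt_add, wt_add] at h4 h5
  omega

theorem V.mul (hq : q ≠ 0) (hQ : IsQ k q D x y) {d e : D} {z z' : ℤ} (h : V k x y d z)
    (h' : V k x y e z') : V k x y (d * e) (z + z') := by
  obtain ⟨a, b, m, n, hm, hn, h, rfl⟩ := h
  obtain ⟨a', b', m', n', hm', hn', h', rfl⟩ := h'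
  obtain ⟨r, t, p, p', hr, ht, he⟩ := ore hq hQ (hn.ne_zero hQ.indep) (hm'.ne_zero hQ.indep)
  refine ⟨a * r, b' * t, m + p, n' + p', hm.mul hq hQ.rel hr, hn'.mul hq hQ.rel ht, ?_, ?_⟩
  · calc d * e * (b' * t) = d * (e * b' * t) := by simp only [mul_assoc]
      _ = d * (b * r) := by rw [h', he]
      _ = a * r := by rw [← mul_assoc, h]
  · have h3 := (hn.mul hq hQ.rel hr).unique hQ.indep (by rw [he]; exact hm'.mul hq hQ.rel ht)
    have h5 := congrArg wt h3
    rw [wt_add, wt_add] at h5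
    rw [wt_add, wt_add]
    push_cast
    omega

theorem V.add (hq : q ≠ 0) (hQ : IsQ k q D x y) {d e : D} {z z' u : ℤ} (h : V k x y d z)
    (h' : V k x y e z') (hu : V k x y (d + e) u) : u ≤ max z z' := by
  have hne := hu.ne_zero hQ
  obtain ⟨a, b, m, n, hm, hn, h, rfl⟩ := h
  obtain ⟨a', b', m', n', hm', hn', h', rfl⟩ := h'
  obtain ⟨r, t, p, p', hr, ht, he⟩ := ore hq hQ (hn.ne_zero hQ.indep) (hn'.ne_zero hQ.indep)
  have hs := hn.mul hq hQ.rel hr
  have hs' := hn'.mul hq hQ.rel ht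
  have har := hm.mul hq hQ.rel hr
  have hat := hm'.mul hq hQ.rel ht
  have h1 : (d + e) * (b * r) = a * r + a' * t := by
    rw [add_mul, ← mul_assoc, h, he, ← mul_assoc, h']
  have h2 : a * r + a' * t ≠ 0 := by
    rw [← h1]
    exact mul_ne_zero hne (hs.ne_zero hQ.indep)
  obtain ⟨l, hl⟩ := exists_lead (add_mem har.mem hat.mem) h2
  have h3 := Lead.add hQ.indep har hat hl
  have h4 : u = (wt l : ℤ) - wt (n + p) :=
    hu.unique hq hQ ⟨_, _, l, n + p, hl, hs, h1, rfl⟩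
  have h5 := hs.unique hQ.indep (by rw [he]; exact hs')
  have h6 := congrArg wt h5
  rw [h4]
  rw [wt_add, wt_add] at h3 h6
  rw [wt_add]
  rw [le_max_iff] at h3 ⊢
  push_cast
  omega

end

theorem t_val {k : Type*} [Field k] (q : k) (hq : q ≠ 0)
    {D : Type*} [DivisionRing D] [Algebra k D] (x y : D) (hQ : Pool.Agent.N921.QD.IsQ k q D x y) :
    ∃ ν : D → WithBot ℤ, (∀ a, ν a = ⊥ ↔ a = 0) ∧ (∀ a b, ν (a * b) = ν a + ν b) ∧
    (∀ a b, ν (a + b) ≤ max (ν a) (ν b)) ∧ ν x = 2 ∧ ν y = 1 ∧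
    ∀ c : k, c ≠ 0 → ν (algebraMap k D c) = 0 := by
  classical
  have hex : ∀ d : D, d ≠ 0 → ∃ z, V k x y d z := fun d hd => V.exists hq hQ hd
  let ν : D → WithBot ℤ := fun d => if h : d = 0 then ⊥ else (((hex d h).choose : ℤ) : WithBot ℤ)
  have h0 : ν 0 = ⊥ := dif_pos rfl
  have hν : ∀ d z, V k x y d z → ν d = (z : WithBot ℤ) := by
    intro d z h
    have hd := h.ne_zero hQ
    have h1 : ν d = (((hex d hd).choose : ℤ) : WithBot ℤ) := dif_neg hd
    rw [h1, ((hex d hd).choose_spec).unique hq hQ h]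
  have hone : Lead k x y 1 (0, 0) := ⟨1, one_ne_zero, 0, zero_mem _, by simp [mon]⟩
  refine ⟨ν, ?_, ?_, ?_, ?_, ?_, ?_⟩
  · intro a
    constructor
    · intro h
      by_contra ha
      obtain ⟨z, hz⟩ := hex a ha
      rw [hν a z hz] at h
      exact WithBot.coe_ne_bot h
    · rintro rfl
      exact h0
  · intro a b
    by_cases ha : a = 0
    · rw [ha, zero_mul, h0, WithBot.bot_add]
    by_cases hb : b = 0
    · rw [hb, mul_zero, h0, WithBot.add_bot]
    obtain ⟨z, hz⟩ := hex a ha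
    obtain ⟨w, hw⟩ := hex b hb
    rw [hν a z hz, hν b w hw, hν _ _ (hz.mul hq hQ hw), WithBot.coe_add]
  · intro a b
    by_cases ha : a = 0
    · rw [ha, zero_add]
      exact le_max_right _ _
    by_cases hb : b = 0
    · rw [hb, add_zero]
      exact le_max_left _ _
    by_cases hab : a + b = 0
    · rw [hab, h0]
      exact bot_le
    obtain ⟨z, hz⟩ := hex a ha
    obtain ⟨w, hw⟩ := hex b hb
    obtain ⟨u, hu⟩ := hex _ hab
    rw [hν a z hz, hν b w hw, hν _ u hu, ← WithBot.coe_max, WithBot.coe_le_coe]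
    exact hz.add hq hQ hw hu
  · have h1 : V k x y x 2 := ⟨x, 1, (1, 0), (0, 0), ⟨1, one_ne_zero, 0, zero_mem _, by simp [mon]⟩,
      hone, mul_one _, by simp [wt]⟩
    rw [hν x 2 h1]
    rfl
  · have h1 : V k x y y 1 := ⟨y, 1, (0, 1), (0, 0), ⟨1, one_ne_zero, 0, zero_mem _, by simp [mon]⟩,
      hone, mul_one _, by simp [wt]⟩
    rw [hν y 1 h1]
    rfl
  · intro c hc
    have h1 : V k x y (algebraMap k D c) 0 := ⟨algebraMap k D c, 1, (0, 0), (0, 0),
      ⟨c, hc, 0, zero_mem _, by simp [mon, Algebra.smul_def]⟩, hone, mul_one _, by simp [wt]⟩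
    rw [hν _ 0 h1]
    rfl

end Pool.Agent.N921.QDU.Val
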