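import Pool.Agent.N921.QDU.Lin
import Pool.Agent.N921.QDU.Univ
import Pool.Agent.N921.QDU.Val

set_option autoImplicit false
set_option linter.all false

/-!
# The five generators and the automorphism
-/

namespace Pool.Agent.N921.QDU.Gen

open Pool.Agent.N921.QD Pool.Agent.N921.QDU.Lin

variable {k : Type*} [Field k] {q : k} {D : Type*} [DivisionRing D] [Algebra k D] {x y : D}

/-- Induction on `ZMod 5`. -/
theorem zmod5_induction {P : ZMod 5 → Prop} (h0 : P 0) (hs : ∀ i, P i → P (i + 1)) (i : ZMod 5) :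
    P i := by
  have : ∀ n : ℕ, P (n : ZMod 5) := by
    intro n
    induction n with
    | zero => simpa using h0
    | succ n ih =>
      have := hs _ ih
      push_cast
      exact this
  have h := this i.val
  rwa [ZMod.natCast_zmod_val] at h

/-- The relations between the five generators. -/
structure Cyc (q : k) (a : ZMod 5 → D) : Prop where
  comm : ∀ i, a i * a (i + 1) = q • (a (i + 1) * a i)
  diag : ∀ i, a i * a (i + 2) = a (i + 1) + q⁻¹ • (1 : D)
  diag' : ∀ i, a (i + 2) * a i = q⁻¹ • a (i + 1) + q⁻¹ • (1 : D)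

/-- The sequence of the iterates. -/
def gen (ψ : D →ₐ[k] D) (x : D) (i : ZMod 5) : D := (ψ^[i.val]) x

theorem x_ne (hD : IsQ k q D x y) : x ≠ 0 := by
  intro h
  have := hD.indep.ne_zero (1, 0)
  simp [h] at this

theorem y_ne (hD : IsQ k q D x y) : y ≠ 0 := by
  intro h
  have := hD.indep.ne_zero (0, 1)
  simp [h] at this

section psi

variable (hD : IsQ k q D x y) (hq : q ≠ 0) (ψ : D →ₐ[k] D) (hx : ψ x = y)
  (hy : ψ y = x⁻¹ * (y + algebraMap k D q⁻¹))

include hD hq hx hy

theorem b_rel : (∀ n : ℕ, (ψ^[n]) x * (ψ^[n+1]) x = q • ((ψ^[n+1]) x * (ψ^[n]) x)) ∧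
    (∀ n : ℕ, (ψ^[n]) x * (ψ^[n+2]) x = (ψ^[n+1]) x + q⁻¹ • (1 : D)) ∧
    (∀ n : ℕ, (ψ^[n+2]) x * (ψ^[n]) x = q⁻¹ • (ψ^[n+1]) x + q⁻¹ • (1 : D)) := by
  have hx0 := x_ne hD
  have e2 : ψ (ψ x) = x⁻¹ * (y + q⁻¹ • (1 : D)) := by
    rw [hx, hy, Algebra.algebraMap_eq_smul_one]
  have hxy : x * y = q • (y * x) := by rw [hD.rel, Algebra.smul_def]
  refine ⟨?_, ?_, ?_⟩
  · intro n
    induction n with
    | zero => simpa [hx] using hxy
    | succ n ih =>
      have := congrArg ψ ih
      rw [map_mul, map_smul, map_mul] at this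
      simpa only [← Function.iterate_succ_apply' ψ] using this
  · intro n
    induction n with
    | zero =>
      change x * ψ (ψ x) = ψ x + _
      rw [e2, hx, mul_inv_cancel_left₀ hx0]
    | succ n ih =>
      have := congrArg ψ ih
      rw [map_mul, map_add, map_smul, map_one] at this
      simpa only [← Function.iterate_succ_apply' ψ] using this
  · intro n
    induction n with
    | zero =>
      change ψ (ψ x) * x = q⁻¹ • ψ x + _
      rw [e2, hx]
      apply mul_left_cancel₀ hx0
      rw [mul_assoc, mul_inv_cancel_left₀ hx0, mul_add, mul_smul_comm, hxy, smul_smul,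
        inv_mul_cancel₀ hq, one_smul, add_mul, mul_smul_comm, smul_mul_assoc, mul_one, one_mul]
    | succ n ih =>
      have := congrArg ψ ih
      rw [map_mul, map_add, map_smul, map_smul, map_one] at this
      simpa only [← Function.iterate_succ_apply' ψ] using this

theorem b_ne (n : ℕ) : (ψ^[n]) x ≠ 0 := by
  induction n with
  | zero => simpa using x_ne hD
  | succ n ih =>
    rw [Function.iterate_succ_apply']
    intro h
    exact ih ((map_eq_zero ψ).1 h)

theorem b_five : (ψ^[5]) x = x := by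
  obtain ⟨h1, h2, h3⟩ := b_rel hD hq ψ hx hy
  have hb2 := b_ne hD hq ψ hx hy 2
  have hb3 := b_ne hD hq ψ hx hy 3
  have c1 : (ψ^[2]) x * (ψ^[3]) x = q • ((ψ^[3]) x * (ψ^[2]) x) := h1 2
  have c2 : (ψ^[2]) x * (ψ^[4]) x = (ψ^[3]) x + q⁻¹ • (1 : D) := h2 2
  have c3 : (ψ^[2]) x * x = q⁻¹ • (ψ^[1]) x + q⁻¹ • (1 : D) := h3 0
  have c4 : (ψ^[3]) x * (ψ^[1]) x = q⁻¹ • (ψ^[2]) x + q⁻¹ • (1 : D) := h3 1
  have c5 : (ψ^[3]) x * (ψ^[5]) x = (ψ^[4]) x + q⁻¹ • (1 : D) := h2 3
  apply mul_left_cancel₀ hb3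
  rw [c5]
  apply mul_left_cancel₀ hb2
  simp only [mul_add, c2, ← mul_assoc, c1, smul_mul_assoc]
  simp only [mul_assoc, c3, mul_add, mul_smul_comm, c4, mul_one, smul_add, smul_smul,
    mul_inv_cancel₀ hq, one_smul, mul_inv_cancel_left₀ hq]
  abel

theorem gen_shift (i : ZMod 5) : ψ (gen ψ x i) = gen ψ x (i + 1) := by
  have h5 := b_five hD hq ψ hx hy
  fin_cases i
  · rfl
  · rfl
  · rfl
  · rfl
  · exact h5

theorem gen_cyc : Cyc q (gen ψ x) := by
  obtain ⟨h1, h2, h3⟩ := b_rel hD hq ψ hx hy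
  have hs := gen_shift hD hq ψ hx hy
  constructor
  · intro i
    induction i using zmod5_induction with
    | h0 => exact h1 0
    | hs i ih =>
      have := congrArg ψ ih
      rw [map_mul, map_smul, map_mul, hs, hs] at this
      exact this
  · intro i
    induction i using zmod5_induction with
    | h0 => exact h2 0
    | hs i ih =>
      have := congrArg ψ ih
      rw [map_mul, map_add, map_smul, map_one, hs, hs, hs] at this
      rw [show i + 1 + 2 = i + 2 + 1 by ring]
      exact this
  · intro i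
    induction i using zmod5_induction with
    | h0 => exact h3 0
    | hs i ih =>
      have := congrArg ψ ih
      rw [map_mul, map_add, map_smul, map_smul, map_one, hs, hs, hs] at this
      rw [show i + 1 + 2 = i + 2 + 1 by ring]
      exact this

end psi

/-- An algebra homomorphism is determined by its values at `x` and `y`. -/
theorem hom_ext (hD : IsQ k q D x y) {E : Type*} [DivisionRing E] [Algebra k E]
    (φ ψ : D →ₐ[k] E) (hx : φ x = ψ x) (hy : φ y = ψ y) : φ = ψ := by
  have key : ∀ a ∈ Algebra.adjoin k {x, y}, φ a = ψ a := by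
    intro a ha
    induction ha using Algebra.adjoin_induction with
    | mem a ha =>
      rcases ha with rfl | rfl
      · exact hx
      · exact hy
    | algebraMap r => simp
    | add a b _ _ h1 h2 => simp [h1, h2]
    | mul a b _ _ h1 h2 => simp [h1, h2]
  ext d
  obtain ⟨a, b, ha, hb, -, rfl⟩ := hD.frac d
  rw [map_mul, map_mul, map_inv₀, map_inv₀, key a ha, key b hb]

end Pool.Agent.N921.QDU.Gen
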