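import Pool.Agent.N921.QD.Def

set_option autoImplicit false
set_option linter.all false

/-!
# Linear algebra over the invariants of a cyclic shift
-/

namespace Pool.Agent.N921.QDU.Lin

/-- Multiplication on the right by an element is onto on a finite dimensional space. -/
theorem fin_closed {K D : Type*} [DivisionRing K] [DivisionRing D] (φ : K →+* D) {n : ℕ}
    (m : Fin n → D) (r : D) (hr : r ≠ 0)
    (hcl : ∀ c : Fin n → K, ∃ c' : Fin n → K, (∑ i, φ (c i) * m i) * r = ∑ i, φ (c' i) * m i)
    (c : Fin n → K) : ∃ c' : Fin n → K, (∑ i, φ (c i) * m i) * r⁻¹ = ∑ i, φ (c' i) * m i := by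
  letI : Module K D := Module.compHom D φ
  have hsmul : ∀ (a : K) (d : D), a • d = φ a * d := fun _ _ => rfl
  let M : Submodule K D := Submodule.span K (Set.range m)
  have hM : ∀ d : D, d ∈ M ↔ ∃ c : Fin n → K, ∑ i, φ (c i) * m i = d := by
    intro d
    exact Submodule.mem_span_range_iff_exists_fun K
  haveI : FiniteDimensional K M := FiniteDimensional.span_of_finite K (Set.finite_range m)
  let R : M →ₗ[K] M :=
    { toFun := fun d => ⟨d.1 * r, by
        obtain ⟨c, hc⟩ := (hM _).1 d.2
        obtain ⟨c', hc'⟩ := hcl c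
        rw [← hc, hc']
        exact (hM _).2 ⟨c', rfl⟩⟩
      map_add' := fun a b => by
        apply Subtype.ext
        exact add_mul _ _ _
      map_smul' := fun a b => by
        apply Subtype.ext
        change (a • b.1) * r = a • (b.1 * r)
        rw [hsmul, hsmul, mul_assoc] }
  have hinj : Function.Injective R := by
    intro a b hab
    apply Subtype.ext
    have := congrArg Subtype.val hab
    exact mul_right_cancel₀ hr this
  have hsurj : Function.Surjective R := LinearMap.injective_iff_surjective.1 hinj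
  obtain ⟨e, he⟩ := hsurj ⟨∑ i, φ (c i) * m i, (hM _).2 ⟨c, rfl⟩⟩
  have he' : e.1 * r = ∑ i, φ (c i) * m i := congrArg Subtype.val he
  obtain ⟨c', hc'⟩ := (hM _).1 e.2
  exact ⟨c', by rw [hc', ← he', mul_assoc, mul_inv_cancel₀ hr, mul_one]⟩

/-- A degree function. -/
structure Deg {D : Type*} [DivisionRing D] (ν : D → WithBot ℤ) : Prop where
  bot : ∀ a, ν a = ⊥ ↔ a = 0
  mul : ∀ a b, ν (a * b) = ν a + ν b
  add : ∀ a b, ν (a + b) ≤ max (ν a) (ν b)
  neg1 : ν (-1) = 0

variable {D : Type*} [DivisionRing D] {ν : D → WithBot ℤ}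

theorem Deg.neg (h : Deg ν) (a : D) : ν (-a) = ν a := by
  rw [← neg_one_mul, h.mul, h.neg1, zero_add]

theorem Deg.sum (h : Deg ν) {ι : Type*} (s : Finset ι) (g : ι → D) (B : WithBot ℤ)
    (hB : ∀ i ∈ s, ν (g i) ≤ B) : ν (∑ i ∈ s, g i) ≤ B := by
  classical
  induction s using Finset.induction_on with
  | empty =>
    rw [Finset.sum_empty, (h.bot 0).2 rfl]
    exact bot_le
  | insert i s hi ih =>
    rw [Finset.sum_insert hi]
    refine (h.add _ _).trans (max_le (hB i (Finset.mem_insert_self _ _)) (ih ?_))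
    intro j hj
    exact hB j (Finset.mem_insert_of_mem hj)

theorem nondeg (h : Deg ν) (a : ZMod 5 → D) (h0 : ν (a 0) = 2) (h1 : ∀ i, i ≠ 0 → ν (a i) ≤ 1)
    (ρ : ZMod 5 → D) (hρ : ∀ n, ∑ i, ρ i * a (i + n) = 0) : ρ = 0 := by
  by_contra hne
  obtain ⟨i₀, hi₀⟩ : ∃ i, ρ i ≠ 0 := by
    by_contra hc
    push Not at hc
    exact hne (funext hc)
  obtain ⟨j, -, hj⟩ := Finset.exists_max_image (Finset.univ : Finset (ZMod 5)) (fun i => ν (ρ i))
    ⟨0, Finset.mem_univ _⟩
  have hj0 : ν (ρ j) ≠ ⊥ := by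
    intro hb
    have := hj i₀ (Finset.mem_univ _)
    rw [hb, le_bot_iff, h.bot] at this
    exact hi₀ this
  have e := hρ (-j)
  rw [← Finset.add_sum_erase _ _ (Finset.mem_univ j), add_neg_cancel] at e
  have e2 : ρ j * a 0 = -∑ i ∈ Finset.univ.erase j, ρ i * a (i + -j) := eq_neg_of_add_eq_zero_left e
  have e3 : ν (ρ j) + 2 ≤ ν (ρ j) + 1 := by
    rw [← h0, ← h.mul, e2, h.neg]
    apply h.sum
    intro i hi
    rw [h.mul]
    apply add_le_add (hj i (Finset.mem_univ _))
    apply h1
    intro hc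
    apply Finset.ne_of_mem_erase hi
    have : i = j := by linear_combination hc
    exact this
  obtain ⟨m, hm⟩ := WithBot.ne_bot_iff_exists.1 hj0
  rw [← hm] at e3
  have e4 : ((m + 2 : ℤ) : WithBot ℤ) ≤ ((m + 1 : ℤ) : WithBot ℤ) := e3
  have := WithBot.coe_le_coe.1 e4
  omega

theorem shift_sum (a : ZMod 5 → D) (ρ : ZMod 5 → D) (n : ZMod 5) :
    ∑ i, ρ (i - 1) * a (i + n) = ∑ i, ρ i * a (i + (n + 1)) := by
  apply Fintype.sum_equiv (Equiv.subRight (1 : ZMod 5))
  intro i
  simp only [Equiv.subRight_apply]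
  congr 2
  ring

section auto

variable (π : D ≃+* D) (a : ZMod 5 → D) (hπ : ∀ i, π (a i) = a (i + 1))

include hπ in
/-- Linear independence over the invariants. -/
theorem indep (h : Deg ν) (h0 : ν (a 0) = 2) (h1 : ∀ i, i ≠ 0 → ν (a i) ≤ 1)
    (r : ZMod 5 → D) (r' : D) (hr : ∀ i, π (r i) = r i) (hr' : π r' = r')
    (e : ∑ i, r i * a i + r' = 0) : (∀ i, r i = r 3) ∧ r' = -(r 3 * ∑ i, a i) := by
  have key : ∀ n : ℕ, ∑ i, r i * a (i + (n : ZMod 5)) + r' = 0 := by
    intro n
    induction n with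
    | zero => simpa using e
    | succ n ih =>
      have := congrArg π ih
      rw [map_add, map_sum, map_zero, hr'] at this
      rw [← this]
      congr 1
      apply Finset.sum_congr rfl
      intro i _
      rw [map_mul, hr, hπ]
      congr 2
      push_cast
      ring
  have key2 : ∀ n : ZMod 5, ∑ i, r i * a (i + n) = -r' := by
    intro n
    have := key n.val
    rw [ZMod.natCast_zmod_val] at this
    exact eq_neg_of_add_eq_zero_left this
  have hρ : (fun i => r i - r (i - 1)) = (0 : ZMod 5 → D) := by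
    apply nondeg h a h0 h1
    intro n
    simp only [sub_mul]
    rw [Finset.sum_sub_distrib, shift_sum, key2, key2, sub_self]
  have hstep : ∀ i, r i = r (i - 1) := by
    intro i
    have := congrFun hρ i
    simp only [Pi.zero_apply] at this
    exact sub_eq_zero.1 this
  have hall : ∀ i, r i = r 3 := by
    have r4 : r 4 = r 3 := hstep 4
    have r0 : r 0 = r 4 := hstep 0
    have r1 : r 1 = r 0 := hstep 1
    have r2 : r 2 = r 1 := hstep 2
    intro i
    fin_cases i
    · exact r0.trans r4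
    · exact r1.trans (r0.trans r4)
    · exact r2.trans (r1.trans (r0.trans r4))
    · rfl
    · exact r4
  refine ⟨hall, ?_⟩
  have e2 : ∑ i, r i * a i = r 3 * ∑ i, a i := by
    rw [Finset.mul_sum]
    exact Finset.sum_congr rfl fun i _ => by rw [hall i]
  rw [e2] at e
  exact eq_neg_of_add_eq_zero_right e

include hπ in
/-- Solution of cyclic systems. -/
theorem solve (h : Deg ν) (h0 : ν (a 0) = 2) (h1 : ∀ i, i ≠ 0 → ν (a i) ≤ 1)
    (d : ZMod 5 → D) (hd : ∀ n, π (d n) = d (n + 1)) :
    ∃ c : ZMod 5 → D, (∀ i, π (c i) = c i) ∧ ∀ n, ∑ i, c i * a (i + n) = d n := by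
  let L : (ZMod 5 → D) →ₗ[D] (ZMod 5 → D) :=
    { toFun := fun ρ n => ∑ i, ρ i * a (i + n)
      map_add' := fun ρ σ => by
        funext n
        simp only [Pi.add_apply, add_mul, Finset.sum_add_distrib]
      map_smul' := fun c ρ => by
        funext n
        simp only [Pi.smul_apply, smul_eq_mul, RingHom.id_apply, Finset.mul_sum, mul_assoc] }
  have hinj : Function.Injective L := by
    rw [injective_iff_map_eq_zero]
    intro ρ hρ
    apply nondeg h a h0 h1
    intro n
    exact congrFun hρ n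
  obtain ⟨c, hc⟩ := LinearMap.injective_iff_surjective.1 hinj d
  have hc' : ∀ n, ∑ i, c i * a (i + n) = d n := fun n => congrFun hc n
  refine ⟨c, ?_, hc'⟩
  have : L (fun i => π (c i)) = d := by
    funext n
    change ∑ i, π (c i) * a (i + n) = d n
    have e := congrArg π (hc' (n - 1))
    rw [map_sum, hd, sub_add_cancel] at e
    rw [← e]
    apply Finset.sum_congr rfl
    intro i _
    rw [map_mul, hπ]
    congr 2
    ring
  rw [← hc] at this
  have h2 := hinj this
  intro i
  exact congrFun h2 i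

end auto

end Pool.Agent.N921.QDU.Lin
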