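import Pool.Agent.N921.QDU.Core2

set_option autoImplicit false
set_option linter.all false

/-!
# The fixed ring
-/

namespace Pool.Agent.N921.QDU.Core

open Pool.Agent.N921.QD Pool.Agent.N921.QDU.Lin Pool.Agent.N921.QDU.Gen Pool.Agent.N921.QDU.Rel

variable {k : Type*} [Field k] {q : k} {D : Type*} [DivisionRing D] [Algebra k D]

section

variable {π : D ≃ₐ[k] D} {a : ZMod 5 → D} {ν : D → WithBot ℤ} {f B1 s1 s2 B4 : D}

theorem rhs_mem {R : Subalgebra k D} {M : Set D} (hadd : ∀ d ∈ M, ∀ e ∈ M, d + e ∈ M)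
    (hmul : ∀ r ∈ R, ∀ d ∈ M, r * d ∈ M) (hone : (1 : D) ∈ M) (hf : f ∈ R) (hB1 : B1 ∈ R)
    (hs1 : s1 ∈ R) (hs2 : s2 ∈ R) (hB4 : B4 ∈ R) {x0 x1 x2 x4 : D} (h0 : x0 ∈ M) (h1 : x1 ∈ M)
    (h2 : x2 ∈ M) (h4 : x4 ∈ M) : rhs q f B1 s1 s2 B4 x0 x1 x2 x4 ∈ M := by
  have e : rhs q f B1 s1 s2 B4 x0 x1 x2 x4 =
      f * 1 + ((q • B4 - q • s2 - 1) * x0 + ((q • B1 - q • s1 - 1) * x1 +
      ((-q • s1) * x2 + (-q • s2) * x4))) := by
    rw [rhs]
    simp only [sub_mul, smul_mul_assoc, one_mul, mul_one]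
    module
  rw [e]
  refine hadd _ (hmul _ hf _ hone) _ (hadd _ (hmul _ ?_ _ h0) _ (hadd _ (hmul _ ?_ _ h1) _
    (hadd _ (hmul _ ?_ _ h2) _ (hmul _ ?_ _ h4))))
  · exact R.sub_mem (R.sub_mem (R.smul_mem hB4 _) (R.smul_mem hs2 _)) R.one_mem
  · exact R.sub_mem (R.sub_mem (R.smul_mem hB1 _) (R.smul_mem hs1 _)) R.one_mem
  · exact R.smul_mem hs1 _
  · exact R.smul_mem hs2 _

theorem fixed_eq_range (x y : D) (hD : IsQ k q D x y) (h : Setup q π a ν) (ha0 : a 0 = x)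
    (ha1 : a 1 = y) :
    ∃ φ : D →ₐ[k] D, Function.Injective φ ∧ ∀ d, π d = d ↔ d ∈ φ.range := by
  obtain ⟨f, B1, s1, s2, B4, hC⟩ := exists_coef h
  have hR := rels h hC
  have hq := h.q0
  have hV := V_ne h hR
  have hs1 := s1_ne hq (by simpa using h.q1 1 one_pos) hR
  obtain ⟨φ, hφx, hφy⟩ := Pool.Agent.N921.QDU.Univ.t_univ q hq h.q1 x y hD (V q s1 s2) s1 hV hs1
    (by rw [V_comm hq hR, Algebra.smul_def])
  have hinj : Function.Injective φ := φ.toRingHom.injective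
  refine ⟨φ, hinj, ?_⟩
  have hfix : ∀ d, π (φ d) = φ d := by
    intro d
    have : (π.toAlgHom.comp φ) = φ := by
      apply hom_ext hD
      · change π (φ x) = φ x
        rw [hφx, V, map_sub, map_mul, map_smul, map_one, hC.hs1, hC.hs2]
      · change π (φ y) = φ y
        rw [hφy, hC.hs1]
    exact DFunLike.congr_fun this d
  have hinv : ∀ d ∈ φ.range, d⁻¹ ∈ φ.range := by
    rintro _ ⟨d, rfl⟩
    exact ⟨d⁻¹, map_inv₀ φ d⟩
  have m1 : s1 ∈ φ.range := ⟨y, hφy⟩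
  have mV : V q s1 s2 ∈ φ.range := ⟨x, hφx⟩
  have m2 : s2 ∈ φ.range := by
    have : s2 = s1⁻¹ * (V q s1 s2 + (q⁻¹ ^ 2) • (1 : D)) := by
      rw [V, sub_add_cancel, inv_mul_cancel_left₀ hs1]
    rw [this]
    exact φ.range.mul_mem (hinv _ m1) (φ.range.add_mem mV (φ.range.smul_mem φ.range.one_mem _))
  have m3 : B1 ∈ φ.range := by
    have : B1 = (s2 * s2 + (q⁻¹ ^ 2) • (s1 * (s1 * s1))) * (V q s1 s2)⁻¹ := by
      rw [← B1_V hq hR, mul_inv_cancel_right₀ hV]
    rw [this]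
    exact φ.range.mul_mem (φ.range.add_mem (φ.range.mul_mem m2 m2)
      (φ.range.smul_mem (φ.range.mul_mem m1 (φ.range.mul_mem m1 m1)) _)) (hinv _ mV)
  have m4 : B4 ∈ φ.range := by
    rw [hR.rB4]
    exact φ.range.sub_mem (φ.range.mul_mem m3 m2) (φ.range.smul_mem (φ.range.mul_mem m1 m1) _)
  have mT : a 0 + a 1 + a 2 + a 3 + a 4 ∈ φ.range := by
    rw [hR.rT]
    exact φ.range.sub_mem (φ.range.add_mem (φ.range.sub_mem (φ.range.add_mem (φ.range.add_mem
      (φ.range.add_mem (φ.range.add_mem (φ.range.add_mem (φ.range.smul_mem φ.range.one_mem _)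
      (φ.range.smul_mem m3 _)) m4) (φ.range.smul_mem m1 _)) (φ.range.smul_mem m2 _))
      (φ.range.smul_mem (φ.range.mul_mem m3 m4) _))
      (φ.range.smul_mem (φ.range.mul_mem m3 m2) _)) (φ.range.mul_mem m1 m1))
      (φ.range.mul_mem m1 m2)
  have mf : f ∈ φ.range := by
    rw [hR.rf]
    apply φ.range.neg_mem
    apply φ.range.smul_mem
    exact φ.range.sub_mem (φ.range.add_mem (φ.range.sub_mem (φ.range.add_mem (φ.range.sub_mem
      (φ.range.add_mem (φ.range.add_mem (φ.range.add_mem (φ.range.sub_mem (φ.range.smul_mem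
      φ.range.one_mem _) m3) (φ.range.smul_mem m1 _)) (φ.range.smul_mem m2 _)) (φ.range.smul_mem
      (φ.range.mul_mem m3 m3) _)) (φ.range.smul_mem (φ.range.mul_mem m3 m1) _))
      (φ.range.mul_mem m1 m4)) (φ.range.mul_mem m1 mT)) (φ.range.mul_mem m1 m1))
      (φ.range.mul_mem m1 m2)
  -- the span of the generators over the image
  let m : Fin 6 → D := ![a 0, a 1, a 2, a 3, a 4, 1]
  let M : Set D := {d | ∃ c : Fin 6 → D, ∑ i, φ (c i) * m i = d}
  have Mzero : (0 : D) ∈ M := ⟨0, by simp⟩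
  have Madd : ∀ d ∈ M, ∀ e ∈ M, d + e ∈ M := by
    rintro _ ⟨c, rfl⟩ _ ⟨c', rfl⟩
    exact ⟨c + c', by simp [add_mul, Finset.sum_add_distrib]⟩
  have Mmul : ∀ r ∈ φ.range, ∀ d ∈ M, r * d ∈ M := by
    rintro _ ⟨r, rfl⟩ _ ⟨c, rfl⟩
    refine ⟨fun i => r * c i, ?_⟩
    simp only [map_mul, mul_assoc, Finset.mul_sum]
    rfl
  have Mgen : ∀ i, m i ∈ M := by
    intro i
    refine ⟨Pi.single i 1, ?_⟩
    rw [Finset.sum_eq_single i]
    · simp
    · intro j _ hj
      rw [Pi.single_eq_of_ne hj, map_zero, zero_mul]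
    · intro hi
      exact absurd (Finset.mem_univ _) hi
  have Mone : (1 : D) ∈ M := Mgen 5
  have Ma : ∀ i, a i ∈ M := by
    intro i
    fin_cases i
    · exact Mgen 0
    · exact Mgen 1
    · exact Mgen 2
    · exact Mgen 3
    · exact Mgen 4
  have Msmul : ∀ (c : k), ∀ d ∈ M, c • d ∈ M := by
    intro c d hd
    rw [Algebra.smul_def]
    exact Mmul _ (φ.range.algebraMap_mem c) _ hd
  have Mneg : ∀ d ∈ M, -d ∈ M := by
    intro d hd
    have := Msmul (-1) d hd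
    rwa [neg_smul, one_smul] at this
  -- products of two generators
  have hadj : ∀ i, a i * a (i + 1) ∈ M := by
    intro i
    rw [hC.eq i]
    exact rhs_mem Madd Mmul Mone mf m3 m1 m2 m4 (Ma _) (Ma _) (Ma _) (Ma _)
  have hadj' : ∀ i, a (i + 1) * a i ∈ M := by
    intro i
    have : a (i + 1) * a i = q⁻¹ • (a i * a (i + 1)) := by
      rw [h.cyc.comm, smul_smul, inv_mul_cancel₀ hq, one_smul]
    rw [this]
    exact Msmul _ _ (hadj i)
  have hdi : ∀ i, a i * a (i + 2) ∈ M := by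
    intro i
    rw [h.cyc.diag]
    exact Madd _ (Ma _) _ (Msmul _ _ Mone)
  have hdi' : ∀ i, a (i + 2) * a i ∈ M := by
    intro i
    rw [h.cyc.diag']
    exact Madd _ (Msmul _ _ (Ma _)) _ (Msmul _ _ Mone)
  have hsq : ∀ i, a i * a i ∈ M := by
    intro i
    have hT' : a i + a (i + 1) + a (i + 2) + a (i + 3) + a (i + 4) =
        a 0 + a 1 + a 2 + a 3 + a 4 := by
      have g : ∀ n : ZMod 5, ∑ i, a (i + n) = ∑ i, a i := by
        intro n
        exact Fintype.sum_equiv (Equiv.addRight n) _ _ (fun i => rfl)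
      have := g i
      rw [sum5, sum5, zero_add, add_comm 1 i, add_comm 2 i, add_comm 3 i, add_comm 4 i] at this
      exact this
    have e : a i * a i = (a 0 + a 1 + a 2 + a 3 + a 4) * a i + (-(a (i + 1) * a i) +
        (-(a (i + 2) * a i) + (-(a (i + 3) * a i) + -(a (i + 4) * a i)))) := by
      rw [← hT']
      simp only [add_mul]
      abel
    rw [e]
    refine Madd _ (Mmul _ mT _ (Ma i)) _ (Madd _ (Mneg _ (hadj' i)) _ (Madd _ (Mneg _ (hdi' i)) _
      (Madd _ (Mneg _ ?_) _ (Mneg _ ?_))))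
    · have := hdi (i + 3)
      rwa [add_assoc, show (3 : ZMod 5) + 2 = 0 from rfl, add_zero] at this
    · have := hadj (i + 4)
      rwa [add_assoc, show (4 : ZMod 5) + 1 = 0 from rfl, add_zero] at this
  have hprod : ∀ i j, a i * a j ∈ M := by
    intro i j
    obtain ⟨n, rfl⟩ : ∃ n, j = i + n := ⟨j - i, by ring⟩
    fin_cases n
    · change a i * a (i + 0) ∈ M
      rw [add_zero]
      exact hsq i
    · exact hadj i
    · exact hdi i
    · have := hdi' (i + 3)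
      rw [add_assoc, show (3 : ZMod 5) + 2 = 0 from rfl, add_zero] at this
      exact this
    · have := hadj' (i + 4)
      rw [add_assoc, show (4 : ZMod 5) + 1 = 0 from rfl, add_zero] at this
      exact this
  have hright : ∀ j, ∀ d ∈ M, d * a j ∈ M := by
    rintro j _ ⟨c, rfl⟩
    have e : (∑ i, φ (c i) * m i) * a j = φ (c 0) * (a 0 * a j) + (φ (c 1) * (a 1 * a j) +
        (φ (c 2) * (a 2 * a j) + (φ (c 3) * (a 3 * a j) + (φ (c 4) * (a 4 * a j) +
        φ (c 5) * a j)))) := by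
      rw [Fin.sum_univ_six]
      change (φ (c 0) * a 0 + φ (c 1) * a 1 + φ (c 2) * a 2 + φ (c 3) * a 3 + φ (c 4) * a 4 +
        φ (c 5) * 1) * a j = _
      simp only [add_mul, mul_assoc, one_mul, add_assoc]
    rw [e]
    have g : ∀ r, φ r ∈ φ.range := fun r => ⟨r, rfl⟩
    exact Madd _ (Mmul _ (g _) _ (hprod _ _)) _ (Madd _ (Mmul _ (g _) _ (hprod _ _)) _
      (Madd _ (Mmul _ (g _) _ (hprod _ _)) _ (Madd _ (Mmul _ (g _) _ (hprod _ _)) _
      (Madd _ (Mmul _ (g _) _ (hprod _ _)) _ (Mmul _ (g _) _ (Ma _))))))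
  have hpoly : ∀ r ∈ Algebra.adjoin k {x, y}, ∀ d ∈ M, d * r ∈ M := by
    intro r hr
    induction hr using Algebra.adjoin_induction with
    | mem r hr =>
      rcases hr with rfl | rfl
      · rw [← ha0]
        exact hright 0
      · rw [← ha1]
        exact hright 1
    | algebraMap c =>
      intro d hd
      rw [← Algebra.commutes, ← Algebra.smul_def]
      exact Msmul _ _ hd
    | add r r' _ _ h1 h2 =>
      intro d hd
      rw [mul_add]
      exact Madd _ (h1 d hd) _ (h2 d hd)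
    | mul r r' _ _ h1 h2 =>
      intro d hd
      rw [← mul_assoc]
      exact h2 _ (h1 _ hd)
  have hall : ∀ d : D, d ∈ M := by
    intro d
    obtain ⟨p, r, hp, hr, hr0, rfl⟩ := hD.frac d
    have h1 : p ∈ M := by
      have := hpoly p hp 1 Mone
      rwa [one_mul] at this
    obtain ⟨c, hc⟩ := h1
    obtain ⟨c', hc'⟩ := fin_closed φ.toRingHom m r hr0 (by
      intro c
      obtain ⟨c', hc'⟩ := hpoly r hr _ ⟨c, rfl⟩
      exact ⟨c', hc'.symm⟩) c
    refine ⟨c', ?_⟩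
    rw [← hc]
    exact hc'.symm
  intro d
  constructor
  · intro hd
    obtain ⟨c, hc⟩ := hall d
    rw [Fin.sum_univ_six] at hc
    change φ (c 0) * a 0 + φ (c 1) * a 1 + φ (c 2) * a 2 + φ (c 3) * a 3 + φ (c 4) * a 4 +
        φ (c 5) * 1 = d at hc
    obtain ⟨-, -, -, -, e5⟩ := indep5 h (φ (c 0)) (φ (c 1)) (φ (c 2)) (φ (c 3)) (φ (c 4))
      (φ (c 5) - d) (hfix _) (hfix _) (hfix _) (hfix _) (hfix _) (by rw [map_sub, hfix, hd])
      (by rw [← hc]; noncomm_ring)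
    have : d = φ (c 5) + φ (c 3) * (a 0 + a 1 + a 2 + a 3 + a 4) := by
      rw [sub_eq_iff_eq_add] at e5
      rw [e5]
      abel
    rw [this]
    exact φ.range.add_mem ⟨_, rfl⟩ (φ.range.mul_mem ⟨_, rfl⟩ mT)
  · rintro ⟨d, rfl⟩
    exact hfix d

end

end Pool.Agent.N921.QDU.Core
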